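import Mathlib

set_option autoImplicit false

namespace Pool.Agent.Helper949_Geod

/-- type 0: the short path from `a` to `p`; type 1: the paths from `a` to `q i`; type 2: the paths
from `q i` to `p`; type 3: the paths from `q i` to the triangle -/
def vset (L h : ℕ) : Finset (ℕ × ℕ × ℕ) :=
  (({0} ×ˢ {0} ×ˢ Finset.range (L + 1)) ∪ ({1} ×ˢ Finset.range 3 ×ˢ Finset.Icc 1 L)) ∪
    (({2} ×ˢ Finset.range 3 ×ˢ Finset.Icc 1 (2 * h)) ∪
      ({3} ×ˢ Finset.range 3 ×ˢ Finset.Icc 1 h))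

theorem mem_vset (L h t i s : ℕ) : (t, i, s) ∈ vset L h ↔
    (t = 0 ∧ i = 0 ∧ s ≤ L) ∨ (t = 1 ∧ i < 3 ∧ 1 ≤ s ∧ s ≤ L) ∨
      (t = 2 ∧ i < 3 ∧ 1 ≤ s ∧ s ≤ 2 * h) ∨ (t = 3 ∧ i < 3 ∧ 1 ≤ s ∧ s ≤ h) := by
  simp only [vset, Finset.mem_union, Finset.mem_product, Finset.mem_singleton, Finset.mem_range,
    Finset.mem_Icc]
  constructor
  · rintro ((⟨h1, h2, h3⟩ | ⟨h1, h2, h3, h4⟩) | (⟨h1, h2, h3, h4⟩ | ⟨h1, h2, h3, h4⟩)) <;> omega
  · rintro (⟨h1, h2, h3⟩ | ⟨h1, h2, h3, h4⟩ | ⟨h1, h2, h3, h4⟩ | ⟨h1, h2, h3, h4⟩) <;> omega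

theorem card_vset (L h : ℕ) : (vset L h).card = 1 + 4 * L + 9 * h := by
  unfold vset
  rw [Finset.card_union_of_disjoint, Finset.card_union_of_disjoint, Finset.card_union_of_disjoint]
  · simp only [Finset.card_product, Finset.card_singleton, Finset.card_range, Nat.card_Icc]
    omega
  · rw [Finset.disjoint_left]
    rintro ⟨t, i, s⟩ h1 h2
    simp only [Finset.mem_product, Finset.mem_singleton] at h1 h2
    omega
  · rw [Finset.disjoint_left]
    rintro ⟨t, i, s⟩ h1 h2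
    simp only [Finset.mem_product, Finset.mem_singleton] at h1 h2
    omega
  · rw [Finset.disjoint_left]
    rintro ⟨t, i, s⟩ h1 h2
    simp only [Finset.mem_union, Finset.mem_product, Finset.mem_singleton] at h1 h2
    omega

/-- oriented edges -/
def stepN (L h t i s T I S : ℕ) : Prop :=
  (t = 0 ∧ T = 0 ∧ i = I ∧ S = s + 1) ∨ (t = 1 ∧ T = 1 ∧ i = I ∧ S = s + 1) ∨
  (t = 2 ∧ T = 2 ∧ i = I ∧ S = s + 1) ∨ (t = 3 ∧ T = 3 ∧ i = I ∧ S = s + 1) ∨
  (t = 0 ∧ s = 0 ∧ T = 1 ∧ S = 1) ∨ (t = 0 ∧ s = L ∧ T = 2 ∧ S = 2 * h) ∨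
  (t = 1 ∧ s = L ∧ T = 2 ∧ i = I ∧ S = 1) ∨ (t = 1 ∧ s = L ∧ T = 3 ∧ i = I ∧ S = 1) ∨
  (t = 3 ∧ T = 3 ∧ s = h ∧ S = h ∧ i ≠ I)

/-- edges -/
def adjN (L h t i s T I S : ℕ) : Prop := stepN L h t i s T I S ∨ stepN L h T I S t i s

/-- the distance function -/
def DN (L h t i s T I S : ℕ) : ℕ :=
  if t = 0 then
    if T = 0 then (s - S) + (S - s)
    else if T = 1 then min (s + S) ((L - s) + (2 * h + 1) + (L - S))
    else if T = 2 then min (s + L + S) ((L - s) + (2 * h + 1 - S))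
    else S + min (s + L) ((L - s) + (2 * h + 1))
  else if t = 1 then
    if T = 0 then min (s + S) ((L - s) + (2 * h + 1) + (L - S))
    else if T = 1 then (if i = I then (s - S) + (S - s) else min (s + S) ((L - s) + (2 * h + 1) + (L - S)))
    else if T = 2 then (if i = I then min ((L - s) + S) (s + L + (2 * h + 1 - S)) else min (s + L) ((L - s) + (2 * h + 1)) + min S (2 * h + 1 - S))
    else (if i = I then (L - s) + S else min ((L - s) + (2 * h + 1 - S)) (s + L + S))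
  else if t = 2 then
    if T = 0 then min (S + L + s) ((L - S) + (2 * h + 1 - s))
    else if T = 1 then (if i = I then min ((L - S) + s) (S + L + (2 * h + 1 - s)) else min (S + L) ((L - S) + (2 * h + 1)) + min s (2 * h + 1 - s))
    else if T = 2 then (if i = I then (s - S) + (S - s) else min (s + (2 * h + 1) + S) ((2 * h + 1 - s) + (2 * h + 1 - S)))
    else (if i = I then s + S else min (s + (2 * h + 1 - S)) ((2 * h + 1 - s) + (2 * h + 1) + S))
  else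
    if T = 0 then s + min (S + L) ((L - S) + (2 * h + 1))
    else if T = 1 then (if i = I then (L - S) + s else min ((L - S) + (2 * h + 1 - s)) (S + L + s))
    else if T = 2 then (if i = I then S + s else min (S + (2 * h + 1 - s)) ((2 * h + 1 - S) + (2 * h + 1) + s))
    else (if i = I then (s - S) + (S - s) else 2 * h + 1 - s - S)

section DNlemmas
variable (L h i s I S : ℕ)
theorem DN_00 : DN L h 0 i s 0 I S = (s - S) + (S - s) := by simp [DN]
theorem DN_01 : DN L h 0 i s 1 I S = min (s + S) ((L - s) + (2 * h + 1) + (L - S)) := by simp [DN]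
theorem DN_10 : DN L h 1 i s 0 I S = min (s + S) ((L - s) + (2 * h + 1) + (L - S)) := by simp [DN]
theorem DN_02 : DN L h 0 i s 2 I S = min (s + L + S) ((L - s) + (2 * h + 1 - S)) := by simp [DN]
theorem DN_20 : DN L h 2 i s 0 I S = min (S + L + s) ((L - S) + (2 * h + 1 - s)) := by simp [DN]
theorem DN_03 : DN L h 0 i s 3 I S = S + min (s + L) ((L - s) + (2 * h + 1)) := by simp [DN]
theorem DN_30 : DN L h 3 i s 0 I S = s + min (S + L) ((L - S) + (2 * h + 1)) := by simp [DN]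
theorem DN_11e : DN L h 1 i s 1 i S = (s - S) + (S - s) := by simp [DN]
theorem DN_12e : DN L h 1 i s 2 i S = min ((L - s) + S) (s + L + (2 * h + 1 - S)) := by simp [DN]
theorem DN_21e : DN L h 2 i s 1 i S = min ((L - S) + s) (S + L + (2 * h + 1 - s)) := by simp [DN]
theorem DN_13e : DN L h 1 i s 3 i S = (L - s) + S := by simp [DN]
theorem DN_31e : DN L h 3 i s 1 i S = (L - S) + s := by simp [DN]
theorem DN_22e : DN L h 2 i s 2 i S = (s - S) + (S - s) := by simp [DN]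
theorem DN_23e : DN L h 2 i s 3 i S = s + S := by simp [DN]
theorem DN_32e : DN L h 3 i s 2 i S = S + s := by simp [DN]
theorem DN_33e : DN L h 3 i s 3 i S = (s - S) + (S - s) := by simp [DN]
variable {i I} (hi : i ≠ I)
include hi
theorem DN_11n : DN L h 1 i s 1 I S = min (s + S) ((L - s) + (2 * h + 1) + (L - S)) := by simp [DN, hi]
theorem DN_12n : DN L h 1 i s 2 I S = min (s + L) ((L - s) + (2 * h + 1)) + min S (2 * h + 1 - S) := by simp [DN, hi]
theorem DN_21n : DN L h 2 i s 1 I S = min (S + L) ((L - S) + (2 * h + 1)) + min s (2 * h + 1 - s) := by simp [DN, hi]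
theorem DN_13n : DN L h 1 i s 3 I S = min ((L - s) + (2 * h + 1 - S)) (s + L + S) := by simp [DN, hi]
theorem DN_31n : DN L h 3 i s 1 I S = min ((L - S) + (2 * h + 1 - s)) (S + L + s) := by simp [DN, hi]
theorem DN_22n : DN L h 2 i s 2 I S = min (s + (2 * h + 1) + S) ((2 * h + 1 - s) + (2 * h + 1 - S)) := by simp [DN, hi]
theorem DN_23n : DN L h 2 i s 3 I S = min (s + (2 * h + 1 - S)) ((2 * h + 1 - s) + (2 * h + 1) + S) := by simp [DN, hi]
theorem DN_32n : DN L h 3 i s 2 I S = min (S + (2 * h + 1 - s)) ((2 * h + 1 - S) + (2 * h + 1) + s) := by simp [DN, hi]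
theorem DN_33n : DN L h 3 i s 3 I S = 2 * h + 1 - s - S := by simp [DN, hi]
end DNlemmas

theorem DN_self (L h t i s : ℕ) (hm : (t, i, s) ∈ vset L h) : DN L h t i s t i s = 0 := by
  rw [mem_vset] at hm
  rcases hm with ⟨rfl, -, -⟩ | ⟨rfl, -, -, -⟩ | ⟨rfl, -, -, -⟩ | ⟨rfl, -, -, -⟩
  · rw [DN_00]; omega
  · rw [DN_11e]; omega
  · rw [DN_22e]; omega
  · rw [DN_33e]; omega

theorem nbr0 (L h i s t' i' s' : ℕ) (hu : (0, i, s) ∈ vset L h) (hw : (t', i', s') ∈ vset L h)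
    (ha : adjN L h 0 i s t' i' s') :
    (t' = 0 ∧ i' = 0 ∧ s' = s + 1 ∧ s + 1 ≤ L) ∨ (t' = 0 ∧ i' = 0 ∧ s = s' + 1) ∨
    (t' = 1 ∧ s = 0 ∧ i' < 3 ∧ s' = 1) ∨ (t' = 2 ∧ s = L ∧ i' < 3 ∧ s' = 2 * h) := by
  rw [mem_vset] at hu hw
  unfold adjN stepN at ha
  rcases ha with (ha | ha | ha | ha | ha | ha | ha | ha | ha) |
    (ha | ha | ha | ha | ha | ha | ha | ha | ha) <;>
  first
  | (exfalso; omega)
  | (left; omega)
  | (right; left; omega)
  | (right; right; left; omega)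
  | (right; right; right; omega)

theorem nbr1 (L h i s t' i' s' : ℕ) (hu : (1, i, s) ∈ vset L h) (hw : (t', i', s') ∈ vset L h)
    (ha : adjN L h 1 i s t' i' s') :
    (t' = 1 ∧ i = i' ∧ s' = s + 1 ∧ s + 1 ≤ L) ∨ (t' = 1 ∧ i = i' ∧ s = s' + 1 ∧ 1 ≤ s') ∨
    (t' = 0 ∧ i' = 0 ∧ s = 1 ∧ s' = 0) ∨ (t' = 2 ∧ i = i' ∧ s = L ∧ s' = 1) ∨
    (t' = 3 ∧ i = i' ∧ s = L ∧ s' = 1) := by
  rw [mem_vset] at hu hw
  unfold adjN stepN at ha
  rcases ha with (ha | ha | ha | ha | ha | ha | ha | ha | ha) |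
    (ha | ha | ha | ha | ha | ha | ha | ha | ha) <;>
  first
  | (exfalso; omega)
  | (left; omega)
  | (right; left; omega)
  | (right; right; left; omega)
  | (right; right; right; left; omega)
  | (right; right; right; right; omega)

theorem nbr2 (L h i s t' i' s' : ℕ) (hu : (2, i, s) ∈ vset L h) (hw : (t', i', s') ∈ vset L h)
    (ha : adjN L h 2 i s t' i' s') :
    (t' = 2 ∧ i = i' ∧ s' = s + 1 ∧ s + 1 ≤ 2 * h) ∨ (t' = 2 ∧ i = i' ∧ s = s' + 1 ∧ 1 ≤ s') ∨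
    (t' = 1 ∧ i = i' ∧ s = 1 ∧ s' = L) ∨ (t' = 0 ∧ i' = 0 ∧ s = 2 * h ∧ s' = L) := by
  rw [mem_vset] at hu hw
  unfold adjN stepN at ha
  rcases ha with (ha | ha | ha | ha | ha | ha | ha | ha | ha) |
    (ha | ha | ha | ha | ha | ha | ha | ha | ha) <;>
  first
  | (exfalso; omega)
  | (left; omega)
  | (right; left; omega)
  | (right; right; left; omega)
  | (right; right; right; omega)

theorem nbr3 (L h i s t' i' s' : ℕ) (hu : (3, i, s) ∈ vset L h) (hw : (t', i', s') ∈ vset L h)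
    (ha : adjN L h 3 i s t' i' s') :
    (t' = 3 ∧ i = i' ∧ s' = s + 1 ∧ s + 1 ≤ h) ∨ (t' = 3 ∧ i = i' ∧ s = s' + 1 ∧ 1 ≤ s') ∨
    (t' = 1 ∧ i = i' ∧ s = 1 ∧ s' = L) ∨ (t' = 3 ∧ i ≠ i' ∧ s = h ∧ s' = h) := by
  rw [mem_vset] at hu hw
  unfold adjN stepN at ha
  rcases ha with (ha | ha | ha | ha | ha | ha | ha | ha | ha) |
    (ha | ha | ha | ha | ha | ha | ha | ha | ha) <;>
  first
  | (exfalso; omega)
  | (left; omega)
  | (right; left; omega)
  | (right; right; left; omega)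
  | (right; right; right; omega)


theorem adj_up (L h t i s : ℕ) (ht : t ≤ 3) : adjN L h t i s t i (s + 1) := by
  unfold adjN stepN
  left
  interval_cases t <;> simp

theorem adj_dn (L h t i s : ℕ) (ht : t ≤ 3) (hs : 1 ≤ s) : adjN L h t i s t i (s - 1) := by
  obtain ⟨r, rfl⟩ : ∃ r, s = r + 1 := ⟨s - 1, by omega⟩
  exact (adj_up L h t i r ht).symm

theorem adj_01 (L h i I : ℕ) : adjN L h 0 i 0 1 I 1 := by
  unfold adjN stepN; left; simp

theorem adj_02 (L h i I : ℕ) : adjN L h 0 i L 2 I (2 * h) := by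
  unfold adjN stepN; left; simp

theorem adj_12 (L h i : ℕ) : adjN L h 1 i L 2 i 1 := by
  unfold adjN stepN; left; simp

theorem adj_13 (L h i : ℕ) : adjN L h 1 i L 3 i 1 := by
  unfold adjN stepN; left; simp

theorem adj_33 (L h i I : ℕ) (hi : i ≠ I) : adjN L h 3 i h 3 I h := by
  unfold adjN stepN; left; simp [hi]

/-- the local condition at one pair -/
def Good (L h t i s T I S : ℕ) : Prop :=
  ∃ t' i' s', (t', i', s') ∈ vset L h ∧ adjN L h t i s t' i' s' ∧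
    DN L h t' i' s' T I S + 1 = DN L h t i s T I S ∧
    ∀ t'' i'' s'', (t'', i'', s'') ∈ vset L h → adjN L h t i s t'' i'' s'' →
      (DN L h t'' i'' s'' T I S + 1 = DN L h t i s T I S → t'' = t' ∧ i'' = i' ∧ s'' = s') ∧
      DN L h t i s T I S ≤ DN L h t'' i'' s'' T I S + 1

theorem good_00 (L h s S : ℕ) (hL : h + 1 ≤ L) (hh : 1 ≤ h)
    (hne : s ≠ S)
    (hu : (0, 0, s) ∈ vset L h) (hv : (0, 0, S) ∈ vset L h) :
    Good L h 0 0 s 0 0 S := by
  have hu' := hu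
  rw [mem_vset] at hu' hv
  have hcases : (s < S) ∨ (S < s) := by omega
  rcases hcases with hc | hc
  · refine ⟨0, 0, s + 1, ?_, ?_, ?_, ?_⟩
    · rw [mem_vset]; omega
    · exact adj_up _ _ _ _ _ (by norm_num)
    · simp only [DN_00]; omega
    · intro t'' i'' s'' hw ha
      rcases nbr0 _ _ _ _ _ _ _ hu hw ha with ⟨rfl, rfl, rfl, hb⟩ | ⟨rfl, rfl, rfl⟩ | ⟨rfl, rfl, hk, rfl⟩ | ⟨rfl, rfl, hk, rfl⟩
      · exact ⟨fun hD => by (simp only [DN_00] at hD; first | exact ⟨rfl, rfl, by omega⟩ | (exfalso; omega)), by (simp only [DN_00]; omega)⟩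
      · exact ⟨fun hD => by (simp only [DN_00] at hD; first | exact ⟨rfl, rfl, by omega⟩ | (exfalso; omega)), by (simp only [DN_00]; omega)⟩
      · exact ⟨fun hD => by (simp only [DN_10, DN_00] at hD; first | exact ⟨rfl, rfl, by omega⟩ | (exfalso; omega)), by (simp only [DN_10, DN_00]; omega)⟩
      · exact ⟨fun hD => by (simp only [DN_20, DN_00] at hD; first | exact ⟨rfl, rfl, by omega⟩ | (exfalso; omega)), by (simp only [DN_20, DN_00]; omega)⟩
  · refine ⟨0, 0, s - 1, ?_, ?_, ?_, ?_⟩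
    · rw [mem_vset]; omega
    · exact adj_dn _ _ _ _ _ (by norm_num) (by omega)
    · simp only [DN_00]; omega
    · intro t'' i'' s'' hw ha
      rcases nbr0 _ _ _ _ _ _ _ hu hw ha with ⟨rfl, rfl, rfl, hb⟩ | ⟨rfl, rfl, rfl⟩ | ⟨rfl, rfl, hk, rfl⟩ | ⟨rfl, rfl, hk, rfl⟩
      · exact ⟨fun hD => by (simp only [DN_00] at hD; first | exact ⟨rfl, rfl, by omega⟩ | (exfalso; omega)), by (simp only [DN_00]; omega)⟩
      · exact ⟨fun hD => by (simp only [DN_00] at hD; first | exact ⟨rfl, rfl, by omega⟩ | (exfalso; omega)), by (simp only [DN_00]; omega)⟩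
      · exact ⟨fun hD => by (simp only [DN_10, DN_00] at hD; first | exact ⟨rfl, rfl, by omega⟩ | (exfalso; omega)), by (simp only [DN_10, DN_00]; omega)⟩
      · exact ⟨fun hD => by (simp only [DN_20, DN_00] at hD; first | exact ⟨rfl, rfl, by omega⟩ | (exfalso; omega)), by (simp only [DN_20, DN_00]; omega)⟩

theorem good_01 (L h s I S : ℕ) (hL : h + 1 ≤ L) (hh : 1 ≤ h)
    (hu : (0, 0, s) ∈ vset L h) (hv : (1, I, S) ∈ vset L h) :
    Good L h 0 0 s 1 I S := by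
  have hu' := hu
  rw [mem_vset] at hu' hv
  have hcases : (s + S ≤ (L - s) + (2 * h + 1) + (L - S) ∧ 1 ≤ s) ∨ (s + S ≤ (L - s) + (2 * h + 1) + (L - S) ∧ s = 0) ∨ ((L - s) + (2 * h + 1) + (L - S) < s + S ∧ s < L) ∨ ((L - s) + (2 * h + 1) + (L - S) < s + S ∧ s = L) := by omega
  rcases hcases with hc | hc | hc | hc
  · refine ⟨0, 0, s - 1, ?_, ?_, ?_, ?_⟩
    · rw [mem_vset]; omega
    · exact adj_dn _ _ _ _ _ (by norm_num) (by omega)
    · simp only [DN_01]; omega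
    · intro t'' i'' s'' hw ha
      rcases nbr0 _ _ _ _ _ _ _ hu hw ha with ⟨rfl, rfl, rfl, hb⟩ | ⟨rfl, rfl, rfl⟩ | ⟨rfl, rfl, hk, rfl⟩ | ⟨rfl, rfl, hk, rfl⟩
      · exact ⟨fun hD => by (simp only [DN_01] at hD; first | exact ⟨rfl, rfl, by omega⟩ | (exfalso; omega)), by (simp only [DN_01]; omega)⟩
      · exact ⟨fun hD => by (simp only [DN_01] at hD; first | exact ⟨rfl, rfl, by omega⟩ | (exfalso; omega)), by (simp only [DN_01]; omega)⟩
      · by_cases hi : i'' = I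
        · subst hi; exact ⟨fun hD => by (simp only [DN_11e, DN_01] at hD; first | exact ⟨rfl, rfl, by omega⟩ | (exfalso; omega)), by (simp only [DN_11e, DN_01]; omega)⟩
        · exact ⟨fun hD => by (simp only [DN_11n _ _ _ _ hi, DN_01] at hD; first | exact ⟨rfl, rfl, by omega⟩ | (exfalso; omega)), by (simp only [DN_11n _ _ _ _ hi, DN_01]; omega)⟩
      · by_cases hi : i'' = I
        · subst hi; exact ⟨fun hD => by (simp only [DN_21e, DN_01] at hD; first | exact ⟨rfl, rfl, by omega⟩ | (exfalso; omega)), by (simp only [DN_21e, DN_01]; omega)⟩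
        · exact ⟨fun hD => by (simp only [DN_21n _ _ _ _ hi, DN_01] at hD; first | exact ⟨rfl, rfl, by omega⟩ | (exfalso; omega)), by (simp only [DN_21n _ _ _ _ hi, DN_01]; omega)⟩
  · refine ⟨1, I, 1, ?_, ?_, ?_, ?_⟩
    · rw [mem_vset]; omega
    · have hs : s = 0 := by omega
      rw [hs]; exact adj_01 _ _ _ _
    · simp only [DN_11e, DN_01]; omega
    · intro t'' i'' s'' hw ha
      rcases nbr0 _ _ _ _ _ _ _ hu hw ha with ⟨rfl, rfl, rfl, hb⟩ | ⟨rfl, rfl, rfl⟩ | ⟨rfl, rfl, hk, rfl⟩ | ⟨rfl, rfl, hk, rfl⟩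
      · exact ⟨fun hD => by (simp only [DN_01] at hD; first | exact ⟨rfl, rfl, by omega⟩ | (exfalso; omega)), by (simp only [DN_01]; omega)⟩
      · exact ⟨fun hD => by (simp only [DN_01] at hD; first | exact ⟨rfl, rfl, by omega⟩ | (exfalso; omega)), by (simp only [DN_01]; omega)⟩
      · by_cases hi : i'' = I
        · subst hi; exact ⟨fun hD => by (simp only [DN_11e, DN_01] at hD; first | exact ⟨rfl, rfl, by omega⟩ | (exfalso; omega)), by (simp only [DN_11e, DN_01]; omega)⟩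
        · exact ⟨fun hD => by (simp only [DN_11n _ _ _ _ hi, DN_01] at hD; first | exact ⟨rfl, rfl, by omega⟩ | (exfalso; omega)), by (simp only [DN_11n _ _ _ _ hi, DN_01]; omega)⟩
      · by_cases hi : i'' = I
        · subst hi; exact ⟨fun hD => by (simp only [DN_21e, DN_01] at hD; first | exact ⟨rfl, rfl, by omega⟩ | (exfalso; omega)), by (simp only [DN_21e, DN_01]; omega)⟩
        · exact ⟨fun hD => by (simp only [DN_21n _ _ _ _ hi, DN_01] at hD; first | exact ⟨rfl, rfl, by omega⟩ | (exfalso; omega)), by (simp only [DN_21n _ _ _ _ hi, DN_01]; omega)⟩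
  · refine ⟨0, 0, s + 1, ?_, ?_, ?_, ?_⟩
    · rw [mem_vset]; omega
    · exact adj_up _ _ _ _ _ (by norm_num)
    · simp only [DN_01]; omega
    · intro t'' i'' s'' hw ha
      rcases nbr0 _ _ _ _ _ _ _ hu hw ha with ⟨rfl, rfl, rfl, hb⟩ | ⟨rfl, rfl, rfl⟩ | ⟨rfl, rfl, hk, rfl⟩ | ⟨rfl, rfl, hk, rfl⟩
      · exact ⟨fun hD => by (simp only [DN_01] at hD; first | exact ⟨rfl, rfl, by omega⟩ | (exfalso; omega)), by (simp only [DN_01]; omega)⟩
      · exact ⟨fun hD => by (simp only [DN_01] at hD; first | exact ⟨rfl, rfl, by omega⟩ | (exfalso; omega)), by (simp only [DN_01]; omega)⟩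
      · by_cases hi : i'' = I
        · subst hi; exact ⟨fun hD => by (simp only [DN_11e, DN_01] at hD; first | exact ⟨rfl, rfl, by omega⟩ | (exfalso; omega)), by (simp only [DN_11e, DN_01]; omega)⟩
        · exact ⟨fun hD => by (simp only [DN_11n _ _ _ _ hi, DN_01] at hD; first | exact ⟨rfl, rfl, by omega⟩ | (exfalso; omega)), by (simp only [DN_11n _ _ _ _ hi, DN_01]; omega)⟩
      · by_cases hi : i'' = I
        · subst hi; exact ⟨fun hD => by (simp only [DN_21e, DN_01] at hD; first | exact ⟨rfl, rfl, by omega⟩ | (exfalso; omega)), by (simp only [DN_21e, DN_01]; omega)⟩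
        · exact ⟨fun hD => by (simp only [DN_21n _ _ _ _ hi, DN_01] at hD; first | exact ⟨rfl, rfl, by omega⟩ | (exfalso; omega)), by (simp only [DN_21n _ _ _ _ hi, DN_01]; omega)⟩
  · refine ⟨2, I, 2 * h, ?_, ?_, ?_, ?_⟩
    · rw [mem_vset]; omega
    · have hs : s = L := by omega
      rw [hs]; exact adj_02 _ _ _ _
    · simp only [DN_21e, DN_01]; omega
    · intro t'' i'' s'' hw ha
      rcases nbr0 _ _ _ _ _ _ _ hu hw ha with ⟨rfl, rfl, rfl, hb⟩ | ⟨rfl, rfl, rfl⟩ | ⟨rfl, rfl, hk, rfl⟩ | ⟨rfl, rfl, hk, rfl⟩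
      · exact ⟨fun hD => by (simp only [DN_01] at hD; first | exact ⟨rfl, rfl, by omega⟩ | (exfalso; omega)), by (simp only [DN_01]; omega)⟩
      · exact ⟨fun hD => by (simp only [DN_01] at hD; first | exact ⟨rfl, rfl, by omega⟩ | (exfalso; omega)), by (simp only [DN_01]; omega)⟩
      · by_cases hi : i'' = I
        · subst hi; exact ⟨fun hD => by (simp only [DN_11e, DN_01] at hD; first | exact ⟨rfl, rfl, by omega⟩ | (exfalso; omega)), by (simp only [DN_11e, DN_01]; omega)⟩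
        · exact ⟨fun hD => by (simp only [DN_11n _ _ _ _ hi, DN_01] at hD; first | exact ⟨rfl, rfl, by omega⟩ | (exfalso; omega)), by (simp only [DN_11n _ _ _ _ hi, DN_01]; omega)⟩
      · by_cases hi : i'' = I
        · subst hi; exact ⟨fun hD => by (simp only [DN_21e, DN_01] at hD; first | exact ⟨rfl, rfl, by omega⟩ | (exfalso; omega)), by (simp only [DN_21e, DN_01]; omega)⟩
        · exact ⟨fun hD => by (simp only [DN_21n _ _ _ _ hi, DN_01] at hD; first | exact ⟨rfl, rfl, by omega⟩ | (exfalso; omega)), by (simp only [DN_21n _ _ _ _ hi, DN_01]; omega)⟩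

theorem good_10 (L h i s S : ℕ) (hL : h + 1 ≤ L) (hh : 1 ≤ h)
    (hu : (1, i, s) ∈ vset L h) (hv : (0, 0, S) ∈ vset L h) :
    Good L h 1 i s 0 0 S := by
  have hu' := hu
  rw [mem_vset] at hu' hv
  have hcases : (s + S ≤ (L - s) + (2 * h + 1) + (L - S) ∧ 2 ≤ s) ∨ (s + S ≤ (L - s) + (2 * h + 1) + (L - S) ∧ s = 1) ∨ ((L - s) + (2 * h + 1) + (L - S) < s + S ∧ s < L) ∨ ((L - s) + (2 * h + 1) + (L - S) < s + S ∧ s = L) := by omega
  rcases hcases with hc | hc | hc | hc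
  · refine ⟨1, i, s - 1, ?_, ?_, ?_, ?_⟩
    · rw [mem_vset]; omega
    · exact adj_dn _ _ _ _ _ (by norm_num) (by omega)
    · simp only [DN_10]; omega
    · intro t'' i'' s'' hw ha
      rcases nbr1 _ _ _ _ _ _ _ hu hw ha with ⟨rfl, rfl, rfl, hb⟩ | ⟨rfl, rfl, rfl, hb⟩ | ⟨rfl, rfl, rfl, rfl⟩ | ⟨rfl, rfl, rfl, rfl⟩ | ⟨rfl, rfl, rfl, rfl⟩
      · exact ⟨fun hD => by (simp only [DN_10] at hD; first | exact ⟨rfl, rfl, by omega⟩ | (exfalso; omega)), by (simp only [DN_10]; omega)⟩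
      · exact ⟨fun hD => by (simp only [DN_10] at hD; first | exact ⟨rfl, rfl, by omega⟩ | (exfalso; omega)), by (simp only [DN_10]; omega)⟩
      · exact ⟨fun hD => by (simp only [DN_00, DN_10] at hD; first | exact ⟨rfl, rfl, by omega⟩ | (exfalso; omega)), by (simp only [DN_00, DN_10]; omega)⟩
      · exact ⟨fun hD => by (simp only [DN_20, DN_10] at hD; first | exact ⟨rfl, rfl, by omega⟩ | (exfalso; omega)), by (simp only [DN_20, DN_10]; omega)⟩
      · exact ⟨fun hD => by (simp only [DN_30, DN_10] at hD; first | exact ⟨rfl, rfl, by omega⟩ | (exfalso; omega)), by (simp only [DN_30, DN_10]; omega)⟩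
  · refine ⟨0, 0, 0, ?_, ?_, ?_, ?_⟩
    · rw [mem_vset]; omega
    · have hs : s = 1 := by omega
      rw [hs]; exact (adj_01 _ _ _ _).symm
    · simp only [DN_00, DN_10]; omega
    · intro t'' i'' s'' hw ha
      rcases nbr1 _ _ _ _ _ _ _ hu hw ha with ⟨rfl, rfl, rfl, hb⟩ | ⟨rfl, rfl, rfl, hb⟩ | ⟨rfl, rfl, rfl, rfl⟩ | ⟨rfl, rfl, rfl, rfl⟩ | ⟨rfl, rfl, rfl, rfl⟩
      · exact ⟨fun hD => by (simp only [DN_10] at hD; first | exact ⟨rfl, rfl, by omega⟩ | (exfalso; omega)), by (simp only [DN_10]; omega)⟩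
      · exact ⟨fun hD => by (simp only [DN_10] at hD; first | exact ⟨rfl, rfl, by omega⟩ | (exfalso; omega)), by (simp only [DN_10]; omega)⟩
      · exact ⟨fun hD => by (simp only [DN_00, DN_10] at hD; first | exact ⟨rfl, rfl, by omega⟩ | (exfalso; omega)), by (simp only [DN_00, DN_10]; omega)⟩
      · exact ⟨fun hD => by (simp only [DN_20, DN_10] at hD; first | exact ⟨rfl, rfl, by omega⟩ | (exfalso; omega)), by (simp only [DN_20, DN_10]; omega)⟩
      · exact ⟨fun hD => by (simp only [DN_30, DN_10] at hD; first | exact ⟨rfl, rfl, by omega⟩ | (exfalso; omega)), by (simp only [DN_30, DN_10]; omega)⟩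
  · refine ⟨1, i, s + 1, ?_, ?_, ?_, ?_⟩
    · rw [mem_vset]; omega
    · exact adj_up _ _ _ _ _ (by norm_num)
    · simp only [DN_10]; omega
    · intro t'' i'' s'' hw ha
      rcases nbr1 _ _ _ _ _ _ _ hu hw ha with ⟨rfl, rfl, rfl, hb⟩ | ⟨rfl, rfl, rfl, hb⟩ | ⟨rfl, rfl, rfl, rfl⟩ | ⟨rfl, rfl, rfl, rfl⟩ | ⟨rfl, rfl, rfl, rfl⟩
      · exact ⟨fun hD => by (simp only [DN_10] at hD; first | exact ⟨rfl, rfl, by omega⟩ | (exfalso; omega)), by (simp only [DN_10]; omega)⟩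
      · exact ⟨fun hD => by (simp only [DN_10] at hD; first | exact ⟨rfl, rfl, by omega⟩ | (exfalso; omega)), by (simp only [DN_10]; omega)⟩
      · exact ⟨fun hD => by (simp only [DN_00, DN_10] at hD; first | exact ⟨rfl, rfl, by omega⟩ | (exfalso; omega)), by (simp only [DN_00, DN_10]; omega)⟩
      · exact ⟨fun hD => by (simp only [DN_20, DN_10] at hD; first | exact ⟨rfl, rfl, by omega⟩ | (exfalso; omega)), by (simp only [DN_20, DN_10]; omega)⟩
      · exact ⟨fun hD => by (simp only [DN_30, DN_10] at hD; first | exact ⟨rfl, rfl, by omega⟩ | (exfalso; omega)), by (simp only [DN_30, DN_10]; omega)⟩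
  · refine ⟨2, i, 1, ?_, ?_, ?_, ?_⟩
    · rw [mem_vset]; omega
    · have hs : s = L := by omega
      rw [hs]; exact adj_12 _ _ _
    · simp only [DN_20, DN_10]; omega
    · intro t'' i'' s'' hw ha
      rcases nbr1 _ _ _ _ _ _ _ hu hw ha with ⟨rfl, rfl, rfl, hb⟩ | ⟨rfl, rfl, rfl, hb⟩ | ⟨rfl, rfl, rfl, rfl⟩ | ⟨rfl, rfl, rfl, rfl⟩ | ⟨rfl, rfl, rfl, rfl⟩
      · exact ⟨fun hD => by (simp only [DN_10] at hD; first | exact ⟨rfl, rfl, by omega⟩ | (exfalso; omega)), by (simp only [DN_10]; omega)⟩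
      · exact ⟨fun hD => by (simp only [DN_10] at hD; first | exact ⟨rfl, rfl, by omega⟩ | (exfalso; omega)), by (simp only [DN_10]; omega)⟩
      · exact ⟨fun hD => by (simp only [DN_00, DN_10] at hD; first | exact ⟨rfl, rfl, by omega⟩ | (exfalso; omega)), by (simp only [DN_00, DN_10]; omega)⟩
      · exact ⟨fun hD => by (simp only [DN_20, DN_10] at hD; first | exact ⟨rfl, rfl, by omega⟩ | (exfalso; omega)), by (simp only [DN_20, DN_10]; omega)⟩
      · exact ⟨fun hD => by (simp only [DN_30, DN_10] at hD; first | exact ⟨rfl, rfl, by omega⟩ | (exfalso; omega)), by (simp only [DN_30, DN_10]; omega)⟩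

theorem good_11n (L h i s I S : ℕ) (hL : h + 1 ≤ L) (hh : 1 ≤ h)
    (hi : i ≠ I)
    (hu : (1, i, s) ∈ vset L h) (hv : (1, I, S) ∈ vset L h) :
    Good L h 1 i s 1 I S := by
  have hu' := hu
  rw [mem_vset] at hu' hv
  have hcases : (s + S ≤ (L - s) + (2 * h + 1) + (L - S) ∧ 2 ≤ s) ∨ (s + S ≤ (L - s) + (2 * h + 1) + (L - S) ∧ s = 1) ∨ ((L - s) + (2 * h + 1) + (L - S) < s + S ∧ s < L) ∨ ((L - s) + (2 * h + 1) + (L - S) < s + S ∧ s = L) := by omega
  rcases hcases with hc | hc | hc | hc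
  · refine ⟨1, i, s - 1, ?_, ?_, ?_, ?_⟩
    · rw [mem_vset]; omega
    · exact adj_dn _ _ _ _ _ (by norm_num) (by omega)
    · simp only [DN_11n _ _ _ _ hi]; omega
    · intro t'' i'' s'' hw ha
      rcases nbr1 _ _ _ _ _ _ _ hu hw ha with ⟨rfl, rfl, rfl, hb⟩ | ⟨rfl, rfl, rfl, hb⟩ | ⟨rfl, rfl, rfl, rfl⟩ | ⟨rfl, rfl, rfl, rfl⟩ | ⟨rfl, rfl, rfl, rfl⟩
      · exact ⟨fun hD => by (simp only [DN_11n _ _ _ _ hi] at hD; first | exact ⟨rfl, rfl, by omega⟩ | (exfalso; omega)), by (simp only [DN_11n _ _ _ _ hi]; omega)⟩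
      · exact ⟨fun hD => by (simp only [DN_11n _ _ _ _ hi] at hD; first | exact ⟨rfl, rfl, by omega⟩ | (exfalso; omega)), by (simp only [DN_11n _ _ _ _ hi]; omega)⟩
      · exact ⟨fun hD => by (simp only [DN_01, DN_11n _ _ _ _ hi] at hD; first | exact ⟨rfl, rfl, by omega⟩ | (exfalso; omega)), by (simp only [DN_01, DN_11n _ _ _ _ hi]; omega)⟩
      · exact ⟨fun hD => by (simp only [DN_21n _ _ _ _ hi, DN_11n _ _ _ _ hi] at hD; first | exact ⟨rfl, rfl, by omega⟩ | (exfalso; omega)), by (simp only [DN_21n _ _ _ _ hi, DN_11n _ _ _ _ hi]; omega)⟩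
      · exact ⟨fun hD => by (simp only [DN_31n _ _ _ _ hi, DN_11n _ _ _ _ hi] at hD; first | exact ⟨rfl, rfl, by omega⟩ | (exfalso; omega)), by (simp only [DN_31n _ _ _ _ hi, DN_11n _ _ _ _ hi]; omega)⟩
  · refine ⟨0, 0, 0, ?_, ?_, ?_, ?_⟩
    · rw [mem_vset]; omega
    · have hs : s = 1 := by omega
      rw [hs]; exact (adj_01 _ _ _ _).symm
    · simp only [DN_01, DN_11n _ _ _ _ hi]; omega
    · intro t'' i'' s'' hw ha
      rcases nbr1 _ _ _ _ _ _ _ hu hw ha with ⟨rfl, rfl, rfl, hb⟩ | ⟨rfl, rfl, rfl, hb⟩ | ⟨rfl, rfl, rfl, rfl⟩ | ⟨rfl, rfl, rfl, rfl⟩ | ⟨rfl, rfl, rfl, rfl⟩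
      · exact ⟨fun hD => by (simp only [DN_11n _ _ _ _ hi] at hD; first | exact ⟨rfl, rfl, by omega⟩ | (exfalso; omega)), by (simp only [DN_11n _ _ _ _ hi]; omega)⟩
      · exact ⟨fun hD => by (simp only [DN_11n _ _ _ _ hi] at hD; first | exact ⟨rfl, rfl, by omega⟩ | (exfalso; omega)), by (simp only [DN_11n _ _ _ _ hi]; omega)⟩
      · exact ⟨fun hD => by (simp only [DN_01, DN_11n _ _ _ _ hi] at hD; first | exact ⟨rfl, rfl, by omega⟩ | (exfalso; omega)), by (simp only [DN_01, DN_11n _ _ _ _ hi]; omega)⟩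
      · exact ⟨fun hD => by (simp only [DN_21n _ _ _ _ hi, DN_11n _ _ _ _ hi] at hD; first | exact ⟨rfl, rfl, by omega⟩ | (exfalso; omega)), by (simp only [DN_21n _ _ _ _ hi, DN_11n _ _ _ _ hi]; omega)⟩
      · exact ⟨fun hD => by (simp only [DN_31n _ _ _ _ hi, DN_11n _ _ _ _ hi] at hD; first | exact ⟨rfl, rfl, by omega⟩ | (exfalso; omega)), by (simp only [DN_31n _ _ _ _ hi, DN_11n _ _ _ _ hi]; omega)⟩
  · refine ⟨1, i, s + 1, ?_, ?_, ?_, ?_⟩
    · rw [mem_vset]; omega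
    · exact adj_up _ _ _ _ _ (by norm_num)
    · simp only [DN_11n _ _ _ _ hi]; omega
    · intro t'' i'' s'' hw ha
      rcases nbr1 _ _ _ _ _ _ _ hu hw ha with ⟨rfl, rfl, rfl, hb⟩ | ⟨rfl, rfl, rfl, hb⟩ | ⟨rfl, rfl, rfl, rfl⟩ | ⟨rfl, rfl, rfl, rfl⟩ | ⟨rfl, rfl, rfl, rfl⟩
      · exact ⟨fun hD => by (simp only [DN_11n _ _ _ _ hi] at hD; first | exact ⟨rfl, rfl, by omega⟩ | (exfalso; omega)), by (simp only [DN_11n _ _ _ _ hi]; omega)⟩
      · exact ⟨fun hD => by (simp only [DN_11n _ _ _ _ hi] at hD; first | exact ⟨rfl, rfl, by omega⟩ | (exfalso; omega)), by (simp only [DN_11n _ _ _ _ hi]; omega)⟩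
      · exact ⟨fun hD => by (simp only [DN_01, DN_11n _ _ _ _ hi] at hD; first | exact ⟨rfl, rfl, by omega⟩ | (exfalso; omega)), by (simp only [DN_01, DN_11n _ _ _ _ hi]; omega)⟩
      · exact ⟨fun hD => by (simp only [DN_21n _ _ _ _ hi, DN_11n _ _ _ _ hi] at hD; first | exact ⟨rfl, rfl, by omega⟩ | (exfalso; omega)), by (simp only [DN_21n _ _ _ _ hi, DN_11n _ _ _ _ hi]; omega)⟩
      · exact ⟨fun hD => by (simp only [DN_31n _ _ _ _ hi, DN_11n _ _ _ _ hi] at hD; first | exact ⟨rfl, rfl, by omega⟩ | (exfalso; omega)), by (simp only [DN_31n _ _ _ _ hi, DN_11n _ _ _ _ hi]; omega)⟩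
  · refine ⟨3, i, 1, ?_, ?_, ?_, ?_⟩
    · rw [mem_vset]; omega
    · have hs : s = L := by omega
      rw [hs]; exact adj_13 _ _ _
    · simp only [DN_31n _ _ _ _ hi, DN_11n _ _ _ _ hi]; omega
    · intro t'' i'' s'' hw ha
      rcases nbr1 _ _ _ _ _ _ _ hu hw ha with ⟨rfl, rfl, rfl, hb⟩ | ⟨rfl, rfl, rfl, hb⟩ | ⟨rfl, rfl, rfl, rfl⟩ | ⟨rfl, rfl, rfl, rfl⟩ | ⟨rfl, rfl, rfl, rfl⟩
      · exact ⟨fun hD => by (simp only [DN_11n _ _ _ _ hi] at hD; first | exact ⟨rfl, rfl, by omega⟩ | (exfalso; omega)), by (simp only [DN_11n _ _ _ _ hi]; omega)⟩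
      · exact ⟨fun hD => by (simp only [DN_11n _ _ _ _ hi] at hD; first | exact ⟨rfl, rfl, by omega⟩ | (exfalso; omega)), by (simp only [DN_11n _ _ _ _ hi]; omega)⟩
      · exact ⟨fun hD => by (simp only [DN_01, DN_11n _ _ _ _ hi] at hD; first | exact ⟨rfl, rfl, by omega⟩ | (exfalso; omega)), by (simp only [DN_01, DN_11n _ _ _ _ hi]; omega)⟩
      · exact ⟨fun hD => by (simp only [DN_21n _ _ _ _ hi, DN_11n _ _ _ _ hi] at hD; first | exact ⟨rfl, rfl, by omega⟩ | (exfalso; omega)), by (simp only [DN_21n _ _ _ _ hi, DN_11n _ _ _ _ hi]; omega)⟩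
      · exact ⟨fun hD => by (simp only [DN_31n _ _ _ _ hi, DN_11n _ _ _ _ hi] at hD; first | exact ⟨rfl, rfl, by omega⟩ | (exfalso; omega)), by (simp only [DN_31n _ _ _ _ hi, DN_11n _ _ _ _ hi]; omega)⟩

theorem good_02 (L h s I S : ℕ) (hL : h + 1 ≤ L) (hh : 1 ≤ h)
    (hu : (0, 0, s) ∈ vset L h) (hv : (2, I, S) ∈ vset L h) :
    Good L h 0 0 s 2 I S := by
  have hu' := hu
  rw [mem_vset] at hu' hv
  have hcases : (s + L + S ≤ (L - s) + (2 * h + 1 - S) ∧ 1 ≤ s) ∨ (s + L + S ≤ (L - s) + (2 * h + 1 - S) ∧ s = 0) ∨ ((L - s) + (2 * h + 1 - S) < s + L + S ∧ s < L) ∨ ((L - s) + (2 * h + 1 - S) < s + L + S ∧ s = L) := by omega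
  rcases hcases with hc | hc | hc | hc
  · refine ⟨0, 0, s - 1, ?_, ?_, ?_, ?_⟩
    · rw [mem_vset]; omega
    · exact adj_dn _ _ _ _ _ (by norm_num) (by omega)
    · simp only [DN_02]; omega
    · intro t'' i'' s'' hw ha
      rcases nbr0 _ _ _ _ _ _ _ hu hw ha with ⟨rfl, rfl, rfl, hb⟩ | ⟨rfl, rfl, rfl⟩ | ⟨rfl, rfl, hk, rfl⟩ | ⟨rfl, rfl, hk, rfl⟩
      · exact ⟨fun hD => by (simp only [DN_02] at hD; first | exact ⟨rfl, rfl, by omega⟩ | (exfalso; omega)), by (simp only [DN_02]; omega)⟩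
      · exact ⟨fun hD => by (simp only [DN_02] at hD; first | exact ⟨rfl, rfl, by omega⟩ | (exfalso; omega)), by (simp only [DN_02]; omega)⟩
      · by_cases hi : i'' = I
        · subst hi; exact ⟨fun hD => by (simp only [DN_12e, DN_02] at hD; first | exact ⟨rfl, rfl, by omega⟩ | (exfalso; omega)), by (simp only [DN_12e, DN_02]; omega)⟩
        · exact ⟨fun hD => by (simp only [DN_12n _ _ _ _ hi, DN_02] at hD; first | exact ⟨rfl, rfl, by omega⟩ | (exfalso; omega)), by (simp only [DN_12n _ _ _ _ hi, DN_02]; omega)⟩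
      · by_cases hi : i'' = I
        · subst hi; exact ⟨fun hD => by (simp only [DN_22e, DN_02] at hD; first | exact ⟨rfl, rfl, by omega⟩ | (exfalso; omega)), by (simp only [DN_22e, DN_02]; omega)⟩
        · exact ⟨fun hD => by (simp only [DN_22n _ _ _ _ hi, DN_02] at hD; first | exact ⟨rfl, rfl, by omega⟩ | (exfalso; omega)), by (simp only [DN_22n _ _ _ _ hi, DN_02]; omega)⟩
  · refine ⟨1, I, 1, ?_, ?_, ?_, ?_⟩
    · rw [mem_vset]; omega
    · have hs : s = 0 := by omega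
      rw [hs]; exact adj_01 _ _ _ _
    · simp only [DN_12e, DN_02]; omega
    · intro t'' i'' s'' hw ha
      rcases nbr0 _ _ _ _ _ _ _ hu hw ha with ⟨rfl, rfl, rfl, hb⟩ | ⟨rfl, rfl, rfl⟩ | ⟨rfl, rfl, hk, rfl⟩ | ⟨rfl, rfl, hk, rfl⟩
      · exact ⟨fun hD => by (simp only [DN_02] at hD; first | exact ⟨rfl, rfl, by omega⟩ | (exfalso; omega)), by (simp only [DN_02]; omega)⟩
      · exact ⟨fun hD => by (simp only [DN_02] at hD; first | exact ⟨rfl, rfl, by omega⟩ | (exfalso; omega)), by (simp only [DN_02]; omega)⟩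
      · by_cases hi : i'' = I
        · subst hi; exact ⟨fun hD => by (simp only [DN_12e, DN_02] at hD; first | exact ⟨rfl, rfl, by omega⟩ | (exfalso; omega)), by (simp only [DN_12e, DN_02]; omega)⟩
        · exact ⟨fun hD => by (simp only [DN_12n _ _ _ _ hi, DN_02] at hD; first | exact ⟨rfl, rfl, by omega⟩ | (exfalso; omega)), by (simp only [DN_12n _ _ _ _ hi, DN_02]; omega)⟩
      · by_cases hi : i'' = I
        · subst hi; exact ⟨fun hD => by (simp only [DN_22e, DN_02] at hD; first | exact ⟨rfl, rfl, by omega⟩ | (exfalso; omega)), by (simp only [DN_22e, DN_02]; omega)⟩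
        · exact ⟨fun hD => by (simp only [DN_22n _ _ _ _ hi, DN_02] at hD; first | exact ⟨rfl, rfl, by omega⟩ | (exfalso; omega)), by (simp only [DN_22n _ _ _ _ hi, DN_02]; omega)⟩
  · refine ⟨0, 0, s + 1, ?_, ?_, ?_, ?_⟩
    · rw [mem_vset]; omega
    · exact adj_up _ _ _ _ _ (by norm_num)
    · simp only [DN_02]; omega
    · intro t'' i'' s'' hw ha
      rcases nbr0 _ _ _ _ _ _ _ hu hw ha with ⟨rfl, rfl, rfl, hb⟩ | ⟨rfl, rfl, rfl⟩ | ⟨rfl, rfl, hk, rfl⟩ | ⟨rfl, rfl, hk, rfl⟩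
      · exact ⟨fun hD => by (simp only [DN_02] at hD; first | exact ⟨rfl, rfl, by omega⟩ | (exfalso; omega)), by (simp only [DN_02]; omega)⟩
      · exact ⟨fun hD => by (simp only [DN_02] at hD; first | exact ⟨rfl, rfl, by omega⟩ | (exfalso; omega)), by (simp only [DN_02]; omega)⟩
      · by_cases hi : i'' = I
        · subst hi; exact ⟨fun hD => by (simp only [DN_12e, DN_02] at hD; first | exact ⟨rfl, rfl, by omega⟩ | (exfalso; omega)), by (simp only [DN_12e, DN_02]; omega)⟩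
        · exact ⟨fun hD => by (simp only [DN_12n _ _ _ _ hi, DN_02] at hD; first | exact ⟨rfl, rfl, by omega⟩ | (exfalso; omega)), by (simp only [DN_12n _ _ _ _ hi, DN_02]; omega)⟩
      · by_cases hi : i'' = I
        · subst hi; exact ⟨fun hD => by (simp only [DN_22e, DN_02] at hD; first | exact ⟨rfl, rfl, by omega⟩ | (exfalso; omega)), by (simp only [DN_22e, DN_02]; omega)⟩
        · exact ⟨fun hD => by (simp only [DN_22n _ _ _ _ hi, DN_02] at hD; first | exact ⟨rfl, rfl, by omega⟩ | (exfalso; omega)), by (simp only [DN_22n _ _ _ _ hi, DN_02]; omega)⟩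
  · refine ⟨2, I, 2 * h, ?_, ?_, ?_, ?_⟩
    · rw [mem_vset]; omega
    · have hs : s = L := by omega
      rw [hs]; exact adj_02 _ _ _ _
    · simp only [DN_22e, DN_02]; omega
    · intro t'' i'' s'' hw ha
      rcases nbr0 _ _ _ _ _ _ _ hu hw ha with ⟨rfl, rfl, rfl, hb⟩ | ⟨rfl, rfl, rfl⟩ | ⟨rfl, rfl, hk, rfl⟩ | ⟨rfl, rfl, hk, rfl⟩
      · exact ⟨fun hD => by (simp only [DN_02] at hD; first | exact ⟨rfl, rfl, by omega⟩ | (exfalso; omega)), by (simp only [DN_02]; omega)⟩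
      · exact ⟨fun hD => by (simp only [DN_02] at hD; first | exact ⟨rfl, rfl, by omega⟩ | (exfalso; omega)), by (simp only [DN_02]; omega)⟩
      · by_cases hi : i'' = I
        · subst hi; exact ⟨fun hD => by (simp only [DN_12e, DN_02] at hD; first | exact ⟨rfl, rfl, by omega⟩ | (exfalso; omega)), by (simp only [DN_12e, DN_02]; omega)⟩
        · exact ⟨fun hD => by (simp only [DN_12n _ _ _ _ hi, DN_02] at hD; first | exact ⟨rfl, rfl, by omega⟩ | (exfalso; omega)), by (simp only [DN_12n _ _ _ _ hi, DN_02]; omega)⟩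
      · by_cases hi : i'' = I
        · subst hi; exact ⟨fun hD => by (simp only [DN_22e, DN_02] at hD; first | exact ⟨rfl, rfl, by omega⟩ | (exfalso; omega)), by (simp only [DN_22e, DN_02]; omega)⟩
        · exact ⟨fun hD => by (simp only [DN_22n _ _ _ _ hi, DN_02] at hD; first | exact ⟨rfl, rfl, by omega⟩ | (exfalso; omega)), by (simp only [DN_22n _ _ _ _ hi, DN_02]; omega)⟩

theorem good_03 (L h s I S : ℕ) (hL : h + 1 ≤ L) (hh : 1 ≤ h)
    (hu : (0, 0, s) ∈ vset L h) (hv : (3, I, S) ∈ vset L h) :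
    Good L h 0 0 s 3 I S := by
  have hu' := hu
  rw [mem_vset] at hu' hv
  have hcases : (s + L ≤ (L - s) + (2 * h + 1) ∧ 1 ≤ s) ∨ (s + L ≤ (L - s) + (2 * h + 1) ∧ s = 0) ∨ ((L - s) + (2 * h + 1) < s + L ∧ s < L) ∨ ((L - s) + (2 * h + 1) < s + L ∧ s = L) := by omega
  rcases hcases with hc | hc | hc | hc
  · refine ⟨0, 0, s - 1, ?_, ?_, ?_, ?_⟩
    · rw [mem_vset]; omega
    · exact adj_dn _ _ _ _ _ (by norm_num) (by omega)
    · simp only [DN_03]; omega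
    · intro t'' i'' s'' hw ha
      rcases nbr0 _ _ _ _ _ _ _ hu hw ha with ⟨rfl, rfl, rfl, hb⟩ | ⟨rfl, rfl, rfl⟩ | ⟨rfl, rfl, hk, rfl⟩ | ⟨rfl, rfl, hk, rfl⟩
      · exact ⟨fun hD => by (simp only [DN_03] at hD; first | exact ⟨rfl, rfl, by omega⟩ | (exfalso; omega)), by (simp only [DN_03]; omega)⟩
      · exact ⟨fun hD => by (simp only [DN_03] at hD; first | exact ⟨rfl, rfl, by omega⟩ | (exfalso; omega)), by (simp only [DN_03]; omega)⟩
      · by_cases hi : i'' = I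
        · subst hi; exact ⟨fun hD => by (simp only [DN_13e, DN_03] at hD; first | exact ⟨rfl, rfl, by omega⟩ | (exfalso; omega)), by (simp only [DN_13e, DN_03]; omega)⟩
        · exact ⟨fun hD => by (simp only [DN_13n _ _ _ _ hi, DN_03] at hD; first | exact ⟨rfl, rfl, by omega⟩ | (exfalso; omega)), by (simp only [DN_13n _ _ _ _ hi, DN_03]; omega)⟩
      · by_cases hi : i'' = I
        · subst hi; exact ⟨fun hD => by (simp only [DN_23e, DN_03] at hD; first | exact ⟨rfl, rfl, by omega⟩ | (exfalso; omega)), by (simp only [DN_23e, DN_03]; omega)⟩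
        · exact ⟨fun hD => by (simp only [DN_23n _ _ _ _ hi, DN_03] at hD; first | exact ⟨rfl, rfl, by omega⟩ | (exfalso; omega)), by (simp only [DN_23n _ _ _ _ hi, DN_03]; omega)⟩
  · refine ⟨1, I, 1, ?_, ?_, ?_, ?_⟩
    · rw [mem_vset]; omega
    · have hs : s = 0 := by omega
      rw [hs]; exact adj_01 _ _ _ _
    · simp only [DN_13e, DN_03]; omega
    · intro t'' i'' s'' hw ha
      rcases nbr0 _ _ _ _ _ _ _ hu hw ha with ⟨rfl, rfl, rfl, hb⟩ | ⟨rfl, rfl, rfl⟩ | ⟨rfl, rfl, hk, rfl⟩ | ⟨rfl, rfl, hk, rfl⟩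
      · exact ⟨fun hD => by (simp only [DN_03] at hD; first | exact ⟨rfl, rfl, by omega⟩ | (exfalso; omega)), by (simp only [DN_03]; omega)⟩
      · exact ⟨fun hD => by (simp only [DN_03] at hD; first | exact ⟨rfl, rfl, by omega⟩ | (exfalso; omega)), by (simp only [DN_03]; omega)⟩
      · by_cases hi : i'' = I
        · subst hi; exact ⟨fun hD => by (simp only [DN_13e, DN_03] at hD; first | exact ⟨rfl, rfl, by omega⟩ | (exfalso; omega)), by (simp only [DN_13e, DN_03]; omega)⟩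
        · exact ⟨fun hD => by (simp only [DN_13n _ _ _ _ hi, DN_03] at hD; first | exact ⟨rfl, rfl, by omega⟩ | (exfalso; omega)), by (simp only [DN_13n _ _ _ _ hi, DN_03]; omega)⟩
      · by_cases hi : i'' = I
        · subst hi; exact ⟨fun hD => by (simp only [DN_23e, DN_03] at hD; first | exact ⟨rfl, rfl, by omega⟩ | (exfalso; omega)), by (simp only [DN_23e, DN_03]; omega)⟩
        · exact ⟨fun hD => by (simp only [DN_23n _ _ _ _ hi, DN_03] at hD; first | exact ⟨rfl, rfl, by omega⟩ | (exfalso; omega)), by (simp only [DN_23n _ _ _ _ hi, DN_03]; omega)⟩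
  · refine ⟨0, 0, s + 1, ?_, ?_, ?_, ?_⟩
    · rw [mem_vset]; omega
    · exact adj_up _ _ _ _ _ (by norm_num)
    · simp only [DN_03]; omega
    · intro t'' i'' s'' hw ha
      rcases nbr0 _ _ _ _ _ _ _ hu hw ha with ⟨rfl, rfl, rfl, hb⟩ | ⟨rfl, rfl, rfl⟩ | ⟨rfl, rfl, hk, rfl⟩ | ⟨rfl, rfl, hk, rfl⟩
      · exact ⟨fun hD => by (simp only [DN_03] at hD; first | exact ⟨rfl, rfl, by omega⟩ | (exfalso; omega)), by (simp only [DN_03]; omega)⟩
      · exact ⟨fun hD => by (simp only [DN_03] at hD; first | exact ⟨rfl, rfl, by omega⟩ | (exfalso; omega)), by (simp only [DN_03]; omega)⟩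
      · by_cases hi : i'' = I
        · subst hi; exact ⟨fun hD => by (simp only [DN_13e, DN_03] at hD; first | exact ⟨rfl, rfl, by omega⟩ | (exfalso; omega)), by (simp only [DN_13e, DN_03]; omega)⟩
        · exact ⟨fun hD => by (simp only [DN_13n _ _ _ _ hi, DN_03] at hD; first | exact ⟨rfl, rfl, by omega⟩ | (exfalso; omega)), by (simp only [DN_13n _ _ _ _ hi, DN_03]; omega)⟩
      · by_cases hi : i'' = I
        · subst hi; exact ⟨fun hD => by (simp only [DN_23e, DN_03] at hD; first | exact ⟨rfl, rfl, by omega⟩ | (exfalso; omega)), by (simp only [DN_23e, DN_03]; omega)⟩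
        · exact ⟨fun hD => by (simp only [DN_23n _ _ _ _ hi, DN_03] at hD; first | exact ⟨rfl, rfl, by omega⟩ | (exfalso; omega)), by (simp only [DN_23n _ _ _ _ hi, DN_03]; omega)⟩
  · refine ⟨2, I, 2 * h, ?_, ?_, ?_, ?_⟩
    · rw [mem_vset]; omega
    · have hs : s = L := by omega
      rw [hs]; exact adj_02 _ _ _ _
    · simp only [DN_23e, DN_03]; omega
    · intro t'' i'' s'' hw ha
      rcases nbr0 _ _ _ _ _ _ _ hu hw ha with ⟨rfl, rfl, rfl, hb⟩ | ⟨rfl, rfl, rfl⟩ | ⟨rfl, rfl, hk, rfl⟩ | ⟨rfl, rfl, hk, rfl⟩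
      · exact ⟨fun hD => by (simp only [DN_03] at hD; first | exact ⟨rfl, rfl, by omega⟩ | (exfalso; omega)), by (simp only [DN_03]; omega)⟩
      · exact ⟨fun hD => by (simp only [DN_03] at hD; first | exact ⟨rfl, rfl, by omega⟩ | (exfalso; omega)), by (simp only [DN_03]; omega)⟩
      · by_cases hi : i'' = I
        · subst hi; exact ⟨fun hD => by (simp only [DN_13e, DN_03] at hD; first | exact ⟨rfl, rfl, by omega⟩ | (exfalso; omega)), by (simp only [DN_13e, DN_03]; omega)⟩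
        · exact ⟨fun hD => by (simp only [DN_13n _ _ _ _ hi, DN_03] at hD; first | exact ⟨rfl, rfl, by omega⟩ | (exfalso; omega)), by (simp only [DN_13n _ _ _ _ hi, DN_03]; omega)⟩
      · by_cases hi : i'' = I
        · subst hi; exact ⟨fun hD => by (simp only [DN_23e, DN_03] at hD; first | exact ⟨rfl, rfl, by omega⟩ | (exfalso; omega)), by (simp only [DN_23e, DN_03]; omega)⟩
        · exact ⟨fun hD => by (simp only [DN_23n _ _ _ _ hi, DN_03] at hD; first | exact ⟨rfl, rfl, by omega⟩ | (exfalso; omega)), by (simp only [DN_23n _ _ _ _ hi, DN_03]; omega)⟩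

theorem good_11e (L h i s S : ℕ) (hL : h + 1 ≤ L) (hh : 1 ≤ h)
    (hne : s ≠ S)
    (hu : (1, i, s) ∈ vset L h) (hv : (1, i, S) ∈ vset L h) :
    Good L h 1 i s 1 i S := by
  have hu' := hu
  rw [mem_vset] at hu' hv
  have hcases : (s < S) ∨ (S < s) := by omega
  rcases hcases with hc | hc
  · refine ⟨1, i, s + 1, ?_, ?_, ?_, ?_⟩
    · rw [mem_vset]; omega
    · exact adj_up _ _ _ _ _ (by norm_num)
    · simp only [DN_11e]; omega
    · intro t'' i'' s'' hw ha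
      rcases nbr1 _ _ _ _ _ _ _ hu hw ha with ⟨rfl, rfl, rfl, hb⟩ | ⟨rfl, rfl, rfl, hb⟩ | ⟨rfl, rfl, rfl, rfl⟩ | ⟨rfl, rfl, rfl, rfl⟩ | ⟨rfl, rfl, rfl, rfl⟩
      · exact ⟨fun hD => by (simp only [DN_11e] at hD; first | exact ⟨rfl, rfl, by omega⟩ | (exfalso; omega)), by (simp only [DN_11e]; omega)⟩
      · exact ⟨fun hD => by (simp only [DN_11e] at hD; first | exact ⟨rfl, rfl, by omega⟩ | (exfalso; omega)), by (simp only [DN_11e]; omega)⟩
      · exact ⟨fun hD => by (simp only [DN_01, DN_11e] at hD; first | exact ⟨rfl, rfl, by omega⟩ | (exfalso; omega)), by (simp only [DN_01, DN_11e]; omega)⟩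
      · exact ⟨fun hD => by (simp only [DN_21e, DN_11e] at hD; first | exact ⟨rfl, rfl, by omega⟩ | (exfalso; omega)), by (simp only [DN_21e, DN_11e]; omega)⟩
      · exact ⟨fun hD => by (simp only [DN_31e, DN_11e] at hD; first | exact ⟨rfl, rfl, by omega⟩ | (exfalso; omega)), by (simp only [DN_31e, DN_11e]; omega)⟩
  · refine ⟨1, i, s - 1, ?_, ?_, ?_, ?_⟩
    · rw [mem_vset]; omega
    · exact adj_dn _ _ _ _ _ (by norm_num) (by omega)
    · simp only [DN_11e]; omega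
    · intro t'' i'' s'' hw ha
      rcases nbr1 _ _ _ _ _ _ _ hu hw ha with ⟨rfl, rfl, rfl, hb⟩ | ⟨rfl, rfl, rfl, hb⟩ | ⟨rfl, rfl, rfl, rfl⟩ | ⟨rfl, rfl, rfl, rfl⟩ | ⟨rfl, rfl, rfl, rfl⟩
      · exact ⟨fun hD => by (simp only [DN_11e] at hD; first | exact ⟨rfl, rfl, by omega⟩ | (exfalso; omega)), by (simp only [DN_11e]; omega)⟩
      · exact ⟨fun hD => by (simp only [DN_11e] at hD; first | exact ⟨rfl, rfl, by omega⟩ | (exfalso; omega)), by (simp only [DN_11e]; omega)⟩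
      · exact ⟨fun hD => by (simp only [DN_01, DN_11e] at hD; first | exact ⟨rfl, rfl, by omega⟩ | (exfalso; omega)), by (simp only [DN_01, DN_11e]; omega)⟩
      · exact ⟨fun hD => by (simp only [DN_21e, DN_11e] at hD; first | exact ⟨rfl, rfl, by omega⟩ | (exfalso; omega)), by (simp only [DN_21e, DN_11e]; omega)⟩
      · exact ⟨fun hD => by (simp only [DN_31e, DN_11e] at hD; first | exact ⟨rfl, rfl, by omega⟩ | (exfalso; omega)), by (simp only [DN_31e, DN_11e]; omega)⟩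

theorem good_12e (L h i s S : ℕ) (hL : h + 1 ≤ L) (hh : 1 ≤ h)
    (hu : (1, i, s) ∈ vset L h) (hv : (2, i, S) ∈ vset L h) :
    Good L h 1 i s 2 i S := by
  have hu' := hu
  rw [mem_vset] at hu' hv
  have hcases : ((L - s) + S ≤ s + L + (2 * h + 1 - S) ∧ s < L) ∨ ((L - s) + S ≤ s + L + (2 * h + 1 - S) ∧ s = L) ∨ (s + L + (2 * h + 1 - S) < (L - s) + S ∧ 2 ≤ s) ∨ (s + L + (2 * h + 1 - S) < (L - s) + S ∧ s = 1) := by omega
  rcases hcases with hc | hc | hc | hc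
  · refine ⟨1, i, s + 1, ?_, ?_, ?_, ?_⟩
    · rw [mem_vset]; omega
    · exact adj_up _ _ _ _ _ (by norm_num)
    · simp only [DN_12e]; omega
    · intro t'' i'' s'' hw ha
      rcases nbr1 _ _ _ _ _ _ _ hu hw ha with ⟨rfl, rfl, rfl, hb⟩ | ⟨rfl, rfl, rfl, hb⟩ | ⟨rfl, rfl, rfl, rfl⟩ | ⟨rfl, rfl, rfl, rfl⟩ | ⟨rfl, rfl, rfl, rfl⟩
      · exact ⟨fun hD => by (simp only [DN_12e] at hD; first | exact ⟨rfl, rfl, by omega⟩ | (exfalso; omega)), by (simp only [DN_12e]; omega)⟩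
      · exact ⟨fun hD => by (simp only [DN_12e] at hD; first | exact ⟨rfl, rfl, by omega⟩ | (exfalso; omega)), by (simp only [DN_12e]; omega)⟩
      · exact ⟨fun hD => by (simp only [DN_02, DN_12e] at hD; first | exact ⟨rfl, rfl, by omega⟩ | (exfalso; omega)), by (simp only [DN_02, DN_12e]; omega)⟩
      · exact ⟨fun hD => by (simp only [DN_22e, DN_12e] at hD; first | exact ⟨rfl, rfl, by omega⟩ | (exfalso; omega)), by (simp only [DN_22e, DN_12e]; omega)⟩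
      · exact ⟨fun hD => by (simp only [DN_32e, DN_12e] at hD; first | exact ⟨rfl, rfl, by omega⟩ | (exfalso; omega)), by (simp only [DN_32e, DN_12e]; omega)⟩
  · refine ⟨2, i, 1, ?_, ?_, ?_, ?_⟩
    · rw [mem_vset]; omega
    · have hs : s = L := by omega
      rw [hs]; exact adj_12 _ _ _
    · simp only [DN_22e, DN_12e]; omega
    · intro t'' i'' s'' hw ha
      rcases nbr1 _ _ _ _ _ _ _ hu hw ha with ⟨rfl, rfl, rfl, hb⟩ | ⟨rfl, rfl, rfl, hb⟩ | ⟨rfl, rfl, rfl, rfl⟩ | ⟨rfl, rfl, rfl, rfl⟩ | ⟨rfl, rfl, rfl, rfl⟩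
      · exact ⟨fun hD => by (simp only [DN_12e] at hD; first | exact ⟨rfl, rfl, by omega⟩ | (exfalso; omega)), by (simp only [DN_12e]; omega)⟩
      · exact ⟨fun hD => by (simp only [DN_12e] at hD; first | exact ⟨rfl, rfl, by omega⟩ | (exfalso; omega)), by (simp only [DN_12e]; omega)⟩
      · exact ⟨fun hD => by (simp only [DN_02, DN_12e] at hD; first | exact ⟨rfl, rfl, by omega⟩ | (exfalso; omega)), by (simp only [DN_02, DN_12e]; omega)⟩
      · exact ⟨fun hD => by (simp only [DN_22e, DN_12e] at hD; first | exact ⟨rfl, rfl, by omega⟩ | (exfalso; omega)), by (simp only [DN_22e, DN_12e]; omega)⟩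
      · exact ⟨fun hD => by (simp only [DN_32e, DN_12e] at hD; first | exact ⟨rfl, rfl, by omega⟩ | (exfalso; omega)), by (simp only [DN_32e, DN_12e]; omega)⟩
  · refine ⟨1, i, s - 1, ?_, ?_, ?_, ?_⟩
    · rw [mem_vset]; omega
    · exact adj_dn _ _ _ _ _ (by norm_num) (by omega)
    · simp only [DN_12e]; omega
    · intro t'' i'' s'' hw ha
      rcases nbr1 _ _ _ _ _ _ _ hu hw ha with ⟨rfl, rfl, rfl, hb⟩ | ⟨rfl, rfl, rfl, hb⟩ | ⟨rfl, rfl, rfl, rfl⟩ | ⟨rfl, rfl, rfl, rfl⟩ | ⟨rfl, rfl, rfl, rfl⟩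
      · exact ⟨fun hD => by (simp only [DN_12e] at hD; first | exact ⟨rfl, rfl, by omega⟩ | (exfalso; omega)), by (simp only [DN_12e]; omega)⟩
      · exact ⟨fun hD => by (simp only [DN_12e] at hD; first | exact ⟨rfl, rfl, by omega⟩ | (exfalso; omega)), by (simp only [DN_12e]; omega)⟩
      · exact ⟨fun hD => by (simp only [DN_02, DN_12e] at hD; first | exact ⟨rfl, rfl, by omega⟩ | (exfalso; omega)), by (simp only [DN_02, DN_12e]; omega)⟩
      · exact ⟨fun hD => by (simp only [DN_22e, DN_12e] at hD; first | exact ⟨rfl, rfl, by omega⟩ | (exfalso; omega)), by (simp only [DN_22e, DN_12e]; omega)⟩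
      · exact ⟨fun hD => by (simp only [DN_32e, DN_12e] at hD; first | exact ⟨rfl, rfl, by omega⟩ | (exfalso; omega)), by (simp only [DN_32e, DN_12e]; omega)⟩
  · refine ⟨0, 0, 0, ?_, ?_, ?_, ?_⟩
    · rw [mem_vset]; omega
    · have hs : s = 1 := by omega
      rw [hs]; exact (adj_01 _ _ _ _).symm
    · simp only [DN_02, DN_12e]; omega
    · intro t'' i'' s'' hw ha
      rcases nbr1 _ _ _ _ _ _ _ hu hw ha with ⟨rfl, rfl, rfl, hb⟩ | ⟨rfl, rfl, rfl, hb⟩ | ⟨rfl, rfl, rfl, rfl⟩ | ⟨rfl, rfl, rfl, rfl⟩ | ⟨rfl, rfl, rfl, rfl⟩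
      · exact ⟨fun hD => by (simp only [DN_12e] at hD; first | exact ⟨rfl, rfl, by omega⟩ | (exfalso; omega)), by (simp only [DN_12e]; omega)⟩
      · exact ⟨fun hD => by (simp only [DN_12e] at hD; first | exact ⟨rfl, rfl, by omega⟩ | (exfalso; omega)), by (simp only [DN_12e]; omega)⟩
      · exact ⟨fun hD => by (simp only [DN_02, DN_12e] at hD; first | exact ⟨rfl, rfl, by omega⟩ | (exfalso; omega)), by (simp only [DN_02, DN_12e]; omega)⟩
      · exact ⟨fun hD => by (simp only [DN_22e, DN_12e] at hD; first | exact ⟨rfl, rfl, by omega⟩ | (exfalso; omega)), by (simp only [DN_22e, DN_12e]; omega)⟩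
      · exact ⟨fun hD => by (simp only [DN_32e, DN_12e] at hD; first | exact ⟨rfl, rfl, by omega⟩ | (exfalso; omega)), by (simp only [DN_32e, DN_12e]; omega)⟩

theorem good_12n (L h i s I S : ℕ) (hL : h + 1 ≤ L) (hh : 1 ≤ h)
    (hi : i ≠ I)
    (hu : (1, i, s) ∈ vset L h) (hv : (2, I, S) ∈ vset L h) :
    Good L h 1 i s 2 I S := by
  have hu' := hu
  rw [mem_vset] at hu' hv
  have hcases : (s + L ≤ (L - s) + (2 * h + 1) ∧ 2 ≤ s) ∨ (s + L ≤ (L - s) + (2 * h + 1) ∧ s = 1) ∨ ((L - s) + (2 * h + 1) < s + L ∧ s < L) ∨ ((L - s) + (2 * h + 1) < s + L ∧ s = L ∧ S ≤ 2 * h + 1 - S) ∨ ((L - s) + (2 * h + 1) < s + L ∧ s = L ∧ 2 * h + 1 - S < S) := by omega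
  rcases hcases with hc | hc | hc | hc | hc
  · refine ⟨1, i, s - 1, ?_, ?_, ?_, ?_⟩
    · rw [mem_vset]; omega
    · exact adj_dn _ _ _ _ _ (by norm_num) (by omega)
    · simp only [DN_12n _ _ _ _ hi]; omega
    · intro t'' i'' s'' hw ha
      rcases nbr1 _ _ _ _ _ _ _ hu hw ha with ⟨rfl, rfl, rfl, hb⟩ | ⟨rfl, rfl, rfl, hb⟩ | ⟨rfl, rfl, rfl, rfl⟩ | ⟨rfl, rfl, rfl, rfl⟩ | ⟨rfl, rfl, rfl, rfl⟩
      · exact ⟨fun hD => by (simp only [DN_12n _ _ _ _ hi] at hD; first | exact ⟨rfl, rfl, by omega⟩ | (exfalso; omega)), by (simp only [DN_12n _ _ _ _ hi]; omega)⟩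
      · exact ⟨fun hD => by (simp only [DN_12n _ _ _ _ hi] at hD; first | exact ⟨rfl, rfl, by omega⟩ | (exfalso; omega)), by (simp only [DN_12n _ _ _ _ hi]; omega)⟩
      · exact ⟨fun hD => by (simp only [DN_02, DN_12n _ _ _ _ hi] at hD; first | exact ⟨rfl, rfl, by omega⟩ | (exfalso; omega)), by (simp only [DN_02, DN_12n _ _ _ _ hi]; omega)⟩
      · exact ⟨fun hD => by (simp only [DN_22n _ _ _ _ hi, DN_12n _ _ _ _ hi] at hD; first | exact ⟨rfl, rfl, by omega⟩ | (exfalso; omega)), by (simp only [DN_22n _ _ _ _ hi, DN_12n _ _ _ _ hi]; omega)⟩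
      · exact ⟨fun hD => by (simp only [DN_32n _ _ _ _ hi, DN_12n _ _ _ _ hi] at hD; first | exact ⟨rfl, rfl, by omega⟩ | (exfalso; omega)), by (simp only [DN_32n _ _ _ _ hi, DN_12n _ _ _ _ hi]; omega)⟩
  · refine ⟨0, 0, 0, ?_, ?_, ?_, ?_⟩
    · rw [mem_vset]; omega
    · have hs : s = 1 := by omega
      rw [hs]; exact (adj_01 _ _ _ _).symm
    · simp only [DN_02, DN_12n _ _ _ _ hi]; omega
    · intro t'' i'' s'' hw ha
      rcases nbr1 _ _ _ _ _ _ _ hu hw ha with ⟨rfl, rfl, rfl, hb⟩ | ⟨rfl, rfl, rfl, hb⟩ | ⟨rfl, rfl, rfl, rfl⟩ | ⟨rfl, rfl, rfl, rfl⟩ | ⟨rfl, rfl, rfl, rfl⟩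
      · exact ⟨fun hD => by (simp only [DN_12n _ _ _ _ hi] at hD; first | exact ⟨rfl, rfl, by omega⟩ | (exfalso; omega)), by (simp only [DN_12n _ _ _ _ hi]; omega)⟩
      · exact ⟨fun hD => by (simp only [DN_12n _ _ _ _ hi] at hD; first | exact ⟨rfl, rfl, by omega⟩ | (exfalso; omega)), by (simp only [DN_12n _ _ _ _ hi]; omega)⟩
      · exact ⟨fun hD => by (simp only [DN_02, DN_12n _ _ _ _ hi] at hD; first | exact ⟨rfl, rfl, by omega⟩ | (exfalso; omega)), by (simp only [DN_02, DN_12n _ _ _ _ hi]; omega)⟩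
      · exact ⟨fun hD => by (simp only [DN_22n _ _ _ _ hi, DN_12n _ _ _ _ hi] at hD; first | exact ⟨rfl, rfl, by omega⟩ | (exfalso; omega)), by (simp only [DN_22n _ _ _ _ hi, DN_12n _ _ _ _ hi]; omega)⟩
      · exact ⟨fun hD => by (simp only [DN_32n _ _ _ _ hi, DN_12n _ _ _ _ hi] at hD; first | exact ⟨rfl, rfl, by omega⟩ | (exfalso; omega)), by (simp only [DN_32n _ _ _ _ hi, DN_12n _ _ _ _ hi]; omega)⟩
  · refine ⟨1, i, s + 1, ?_, ?_, ?_, ?_⟩
    · rw [mem_vset]; omega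
    · exact adj_up _ _ _ _ _ (by norm_num)
    · simp only [DN_12n _ _ _ _ hi]; omega
    · intro t'' i'' s'' hw ha
      rcases nbr1 _ _ _ _ _ _ _ hu hw ha with ⟨rfl, rfl, rfl, hb⟩ | ⟨rfl, rfl, rfl, hb⟩ | ⟨rfl, rfl, rfl, rfl⟩ | ⟨rfl, rfl, rfl, rfl⟩ | ⟨rfl, rfl, rfl, rfl⟩
      · exact ⟨fun hD => by (simp only [DN_12n _ _ _ _ hi] at hD; first | exact ⟨rfl, rfl, by omega⟩ | (exfalso; omega)), by (simp only [DN_12n _ _ _ _ hi]; omega)⟩
      · exact ⟨fun hD => by (simp only [DN_12n _ _ _ _ hi] at hD; first | exact ⟨rfl, rfl, by omega⟩ | (exfalso; omega)), by (simp only [DN_12n _ _ _ _ hi]; omega)⟩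
      · exact ⟨fun hD => by (simp only [DN_02, DN_12n _ _ _ _ hi] at hD; first | exact ⟨rfl, rfl, by omega⟩ | (exfalso; omega)), by (simp only [DN_02, DN_12n _ _ _ _ hi]; omega)⟩
      · exact ⟨fun hD => by (simp only [DN_22n _ _ _ _ hi, DN_12n _ _ _ _ hi] at hD; first | exact ⟨rfl, rfl, by omega⟩ | (exfalso; omega)), by (simp only [DN_22n _ _ _ _ hi, DN_12n _ _ _ _ hi]; omega)⟩
      · exact ⟨fun hD => by (simp only [DN_32n _ _ _ _ hi, DN_12n _ _ _ _ hi] at hD; first | exact ⟨rfl, rfl, by omega⟩ | (exfalso; omega)), by (simp only [DN_32n _ _ _ _ hi, DN_12n _ _ _ _ hi]; omega)⟩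
  · refine ⟨3, i, 1, ?_, ?_, ?_, ?_⟩
    · rw [mem_vset]; omega
    · have hs : s = L := by omega
      rw [hs]; exact adj_13 _ _ _
    · simp only [DN_32n _ _ _ _ hi, DN_12n _ _ _ _ hi]; omega
    · intro t'' i'' s'' hw ha
      rcases nbr1 _ _ _ _ _ _ _ hu hw ha with ⟨rfl, rfl, rfl, hb⟩ | ⟨rfl, rfl, rfl, hb⟩ | ⟨rfl, rfl, rfl, rfl⟩ | ⟨rfl, rfl, rfl, rfl⟩ | ⟨rfl, rfl, rfl, rfl⟩
      · exact ⟨fun hD => by (simp only [DN_12n _ _ _ _ hi] at hD; first | exact ⟨rfl, rfl, by omega⟩ | (exfalso; omega)), by (simp only [DN_12n _ _ _ _ hi]; omega)⟩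
      · exact ⟨fun hD => by (simp only [DN_12n _ _ _ _ hi] at hD; first | exact ⟨rfl, rfl, by omega⟩ | (exfalso; omega)), by (simp only [DN_12n _ _ _ _ hi]; omega)⟩
      · exact ⟨fun hD => by (simp only [DN_02, DN_12n _ _ _ _ hi] at hD; first | exact ⟨rfl, rfl, by omega⟩ | (exfalso; omega)), by (simp only [DN_02, DN_12n _ _ _ _ hi]; omega)⟩
      · exact ⟨fun hD => by (simp only [DN_22n _ _ _ _ hi, DN_12n _ _ _ _ hi] at hD; first | exact ⟨rfl, rfl, by omega⟩ | (exfalso; omega)), by (simp only [DN_22n _ _ _ _ hi, DN_12n _ _ _ _ hi]; omega)⟩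
      · exact ⟨fun hD => by (simp only [DN_32n _ _ _ _ hi, DN_12n _ _ _ _ hi] at hD; first | exact ⟨rfl, rfl, by omega⟩ | (exfalso; omega)), by (simp only [DN_32n _ _ _ _ hi, DN_12n _ _ _ _ hi]; omega)⟩
  · refine ⟨2, i, 1, ?_, ?_, ?_, ?_⟩
    · rw [mem_vset]; omega
    · have hs : s = L := by omega
      rw [hs]; exact adj_12 _ _ _
    · simp only [DN_22n _ _ _ _ hi, DN_12n _ _ _ _ hi]; omega
    · intro t'' i'' s'' hw ha
      rcases nbr1 _ _ _ _ _ _ _ hu hw ha with ⟨rfl, rfl, rfl, hb⟩ | ⟨rfl, rfl, rfl, hb⟩ | ⟨rfl, rfl, rfl, rfl⟩ | ⟨rfl, rfl, rfl, rfl⟩ | ⟨rfl, rfl, rfl, rfl⟩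
      · exact ⟨fun hD => by (simp only [DN_12n _ _ _ _ hi] at hD; first | exact ⟨rfl, rfl, by omega⟩ | (exfalso; omega)), by (simp only [DN_12n _ _ _ _ hi]; omega)⟩
      · exact ⟨fun hD => by (simp only [DN_12n _ _ _ _ hi] at hD; first | exact ⟨rfl, rfl, by omega⟩ | (exfalso; omega)), by (simp only [DN_12n _ _ _ _ hi]; omega)⟩
      · exact ⟨fun hD => by (simp only [DN_02, DN_12n _ _ _ _ hi] at hD; first | exact ⟨rfl, rfl, by omega⟩ | (exfalso; omega)), by (simp only [DN_02, DN_12n _ _ _ _ hi]; omega)⟩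
      · exact ⟨fun hD => by (simp only [DN_22n _ _ _ _ hi, DN_12n _ _ _ _ hi] at hD; first | exact ⟨rfl, rfl, by omega⟩ | (exfalso; omega)), by (simp only [DN_22n _ _ _ _ hi, DN_12n _ _ _ _ hi]; omega)⟩
      · exact ⟨fun hD => by (simp only [DN_32n _ _ _ _ hi, DN_12n _ _ _ _ hi] at hD; first | exact ⟨rfl, rfl, by omega⟩ | (exfalso; omega)), by (simp only [DN_32n _ _ _ _ hi, DN_12n _ _ _ _ hi]; omega)⟩

theorem good_13e (L h i s S : ℕ) (hL : h + 1 ≤ L) (hh : 1 ≤ h)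
    (hu : (1, i, s) ∈ vset L h) (hv : (3, i, S) ∈ vset L h) :
    Good L h 1 i s 3 i S := by
  have hu' := hu
  rw [mem_vset] at hu' hv
  have hcases : (s < L) ∨ (s = L) := by omega
  rcases hcases with hc | hc
  · refine ⟨1, i, s + 1, ?_, ?_, ?_, ?_⟩
    · rw [mem_vset]; omega
    · exact adj_up _ _ _ _ _ (by norm_num)
    · simp only [DN_13e]; omega
    · intro t'' i'' s'' hw ha
      rcases nbr1 _ _ _ _ _ _ _ hu hw ha with ⟨rfl, rfl, rfl, hb⟩ | ⟨rfl, rfl, rfl, hb⟩ | ⟨rfl, rfl, rfl, rfl⟩ | ⟨rfl, rfl, rfl, rfl⟩ | ⟨rfl, rfl, rfl, rfl⟩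
      · exact ⟨fun hD => by (simp only [DN_13e] at hD; first | exact ⟨rfl, rfl, by omega⟩ | (exfalso; omega)), by (simp only [DN_13e]; omega)⟩
      · exact ⟨fun hD => by (simp only [DN_13e] at hD; first | exact ⟨rfl, rfl, by omega⟩ | (exfalso; omega)), by (simp only [DN_13e]; omega)⟩
      · exact ⟨fun hD => by (simp only [DN_03, DN_13e] at hD; first | exact ⟨rfl, rfl, by omega⟩ | (exfalso; omega)), by (simp only [DN_03, DN_13e]; omega)⟩
      · exact ⟨fun hD => by (simp only [DN_23e, DN_13e] at hD; first | exact ⟨rfl, rfl, by omega⟩ | (exfalso; omega)), by (simp only [DN_23e, DN_13e]; omega)⟩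
      · exact ⟨fun hD => by (simp only [DN_33e, DN_13e] at hD; first | exact ⟨rfl, rfl, by omega⟩ | (exfalso; omega)), by (simp only [DN_33e, DN_13e]; omega)⟩
  · refine ⟨3, i, 1, ?_, ?_, ?_, ?_⟩
    · rw [mem_vset]; omega
    · have hs : s = L := by omega
      rw [hs]; exact adj_13 _ _ _
    · simp only [DN_33e, DN_13e]; omega
    · intro t'' i'' s'' hw ha
      rcases nbr1 _ _ _ _ _ _ _ hu hw ha with ⟨rfl, rfl, rfl, hb⟩ | ⟨rfl, rfl, rfl, hb⟩ | ⟨rfl, rfl, rfl, rfl⟩ | ⟨rfl, rfl, rfl, rfl⟩ | ⟨rfl, rfl, rfl, rfl⟩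
      · exact ⟨fun hD => by (simp only [DN_13e] at hD; first | exact ⟨rfl, rfl, by omega⟩ | (exfalso; omega)), by (simp only [DN_13e]; omega)⟩
      · exact ⟨fun hD => by (simp only [DN_13e] at hD; first | exact ⟨rfl, rfl, by omega⟩ | (exfalso; omega)), by (simp only [DN_13e]; omega)⟩
      · exact ⟨fun hD => by (simp only [DN_03, DN_13e] at hD; first | exact ⟨rfl, rfl, by omega⟩ | (exfalso; omega)), by (simp only [DN_03, DN_13e]; omega)⟩
      · exact ⟨fun hD => by (simp only [DN_23e, DN_13e] at hD; first | exact ⟨rfl, rfl, by omega⟩ | (exfalso; omega)), by (simp only [DN_23e, DN_13e]; omega)⟩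
      · exact ⟨fun hD => by (simp only [DN_33e, DN_13e] at hD; first | exact ⟨rfl, rfl, by omega⟩ | (exfalso; omega)), by (simp only [DN_33e, DN_13e]; omega)⟩

theorem good_13n (L h i s I S : ℕ) (hL : h + 1 ≤ L) (hh : 1 ≤ h)
    (hi : i ≠ I)
    (hu : (1, i, s) ∈ vset L h) (hv : (3, I, S) ∈ vset L h) :
    Good L h 1 i s 3 I S := by
  have hu' := hu
  rw [mem_vset] at hu' hv
  have hcases : ((L - s) + (2 * h + 1 - S) ≤ s + L + S ∧ s < L) ∨ ((L - s) + (2 * h + 1 - S) ≤ s + L + S ∧ s = L) ∨ (s + L + S < (L - s) + (2 * h + 1 - S) ∧ 2 ≤ s) ∨ (s + L + S < (L - s) + (2 * h + 1 - S) ∧ s = 1) := by omega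
  rcases hcases with hc | hc | hc | hc
  · refine ⟨1, i, s + 1, ?_, ?_, ?_, ?_⟩
    · rw [mem_vset]; omega
    · exact adj_up _ _ _ _ _ (by norm_num)
    · simp only [DN_13n _ _ _ _ hi]; omega
    · intro t'' i'' s'' hw ha
      rcases nbr1 _ _ _ _ _ _ _ hu hw ha with ⟨rfl, rfl, rfl, hb⟩ | ⟨rfl, rfl, rfl, hb⟩ | ⟨rfl, rfl, rfl, rfl⟩ | ⟨rfl, rfl, rfl, rfl⟩ | ⟨rfl, rfl, rfl, rfl⟩
      · exact ⟨fun hD => by (simp only [DN_13n _ _ _ _ hi] at hD; first | exact ⟨rfl, rfl, by omega⟩ | (exfalso; omega)), by (simp only [DN_13n _ _ _ _ hi]; omega)⟩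
      · exact ⟨fun hD => by (simp only [DN_13n _ _ _ _ hi] at hD; first | exact ⟨rfl, rfl, by omega⟩ | (exfalso; omega)), by (simp only [DN_13n _ _ _ _ hi]; omega)⟩
      · exact ⟨fun hD => by (simp only [DN_03, DN_13n _ _ _ _ hi] at hD; first | exact ⟨rfl, rfl, by omega⟩ | (exfalso; omega)), by (simp only [DN_03, DN_13n _ _ _ _ hi]; omega)⟩
      · exact ⟨fun hD => by (simp only [DN_23n _ _ _ _ hi, DN_13n _ _ _ _ hi] at hD; first | exact ⟨rfl, rfl, by omega⟩ | (exfalso; omega)), by (simp only [DN_23n _ _ _ _ hi, DN_13n _ _ _ _ hi]; omega)⟩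
      · exact ⟨fun hD => by (simp only [DN_33n _ _ _ _ hi, DN_13n _ _ _ _ hi] at hD; first | exact ⟨rfl, rfl, by omega⟩ | (exfalso; omega)), by (simp only [DN_33n _ _ _ _ hi, DN_13n _ _ _ _ hi]; omega)⟩
  · refine ⟨3, i, 1, ?_, ?_, ?_, ?_⟩
    · rw [mem_vset]; omega
    · have hs : s = L := by omega
      rw [hs]; exact adj_13 _ _ _
    · simp only [DN_33n _ _ _ _ hi, DN_13n _ _ _ _ hi]; omega
    · intro t'' i'' s'' hw ha
      rcases nbr1 _ _ _ _ _ _ _ hu hw ha with ⟨rfl, rfl, rfl, hb⟩ | ⟨rfl, rfl, rfl, hb⟩ | ⟨rfl, rfl, rfl, rfl⟩ | ⟨rfl, rfl, rfl, rfl⟩ | ⟨rfl, rfl, rfl, rfl⟩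
      · exact ⟨fun hD => by (simp only [DN_13n _ _ _ _ hi] at hD; first | exact ⟨rfl, rfl, by omega⟩ | (exfalso; omega)), by (simp only [DN_13n _ _ _ _ hi]; omega)⟩
      · exact ⟨fun hD => by (simp only [DN_13n _ _ _ _ hi] at hD; first | exact ⟨rfl, rfl, by omega⟩ | (exfalso; omega)), by (simp only [DN_13n _ _ _ _ hi]; omega)⟩
      · exact ⟨fun hD => by (simp only [DN_03, DN_13n _ _ _ _ hi] at hD; first | exact ⟨rfl, rfl, by omega⟩ | (exfalso; omega)), by (simp only [DN_03, DN_13n _ _ _ _ hi]; omega)⟩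
      · exact ⟨fun hD => by (simp only [DN_23n _ _ _ _ hi, DN_13n _ _ _ _ hi] at hD; first | exact ⟨rfl, rfl, by omega⟩ | (exfalso; omega)), by (simp only [DN_23n _ _ _ _ hi, DN_13n _ _ _ _ hi]; omega)⟩
      · exact ⟨fun hD => by (simp only [DN_33n _ _ _ _ hi, DN_13n _ _ _ _ hi] at hD; first | exact ⟨rfl, rfl, by omega⟩ | (exfalso; omega)), by (simp only [DN_33n _ _ _ _ hi, DN_13n _ _ _ _ hi]; omega)⟩
  · refine ⟨1, i, s - 1, ?_, ?_, ?_, ?_⟩
    · rw [mem_vset]; omega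
    · exact adj_dn _ _ _ _ _ (by norm_num) (by omega)
    · simp only [DN_13n _ _ _ _ hi]; omega
    · intro t'' i'' s'' hw ha
      rcases nbr1 _ _ _ _ _ _ _ hu hw ha with ⟨rfl, rfl, rfl, hb⟩ | ⟨rfl, rfl, rfl, hb⟩ | ⟨rfl, rfl, rfl, rfl⟩ | ⟨rfl, rfl, rfl, rfl⟩ | ⟨rfl, rfl, rfl, rfl⟩
      · exact ⟨fun hD => by (simp only [DN_13n _ _ _ _ hi] at hD; first | exact ⟨rfl, rfl, by omega⟩ | (exfalso; omega)), by (simp only [DN_13n _ _ _ _ hi]; omega)⟩
      · exact ⟨fun hD => by (simp only [DN_13n _ _ _ _ hi] at hD; first | exact ⟨rfl, rfl, by omega⟩ | (exfalso; omega)), by (simp only [DN_13n _ _ _ _ hi]; omega)⟩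
      · exact ⟨fun hD => by (simp only [DN_03, DN_13n _ _ _ _ hi] at hD; first | exact ⟨rfl, rfl, by omega⟩ | (exfalso; omega)), by (simp only [DN_03, DN_13n _ _ _ _ hi]; omega)⟩
      · exact ⟨fun hD => by (simp only [DN_23n _ _ _ _ hi, DN_13n _ _ _ _ hi] at hD; first | exact ⟨rfl, rfl, by omega⟩ | (exfalso; omega)), by (simp only [DN_23n _ _ _ _ hi, DN_13n _ _ _ _ hi]; omega)⟩
      · exact ⟨fun hD => by (simp only [DN_33n _ _ _ _ hi, DN_13n _ _ _ _ hi] at hD; first | exact ⟨rfl, rfl, by omega⟩ | (exfalso; omega)), by (simp only [DN_33n _ _ _ _ hi, DN_13n _ _ _ _ hi]; omega)⟩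
  · refine ⟨0, 0, 0, ?_, ?_, ?_, ?_⟩
    · rw [mem_vset]; omega
    · have hs : s = 1 := by omega
      rw [hs]; exact (adj_01 _ _ _ _).symm
    · simp only [DN_03, DN_13n _ _ _ _ hi]; omega
    · intro t'' i'' s'' hw ha
      rcases nbr1 _ _ _ _ _ _ _ hu hw ha with ⟨rfl, rfl, rfl, hb⟩ | ⟨rfl, rfl, rfl, hb⟩ | ⟨rfl, rfl, rfl, rfl⟩ | ⟨rfl, rfl, rfl, rfl⟩ | ⟨rfl, rfl, rfl, rfl⟩
      · exact ⟨fun hD => by (simp only [DN_13n _ _ _ _ hi] at hD; first | exact ⟨rfl, rfl, by omega⟩ | (exfalso; omega)), by (simp only [DN_13n _ _ _ _ hi]; omega)⟩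
      · exact ⟨fun hD => by (simp only [DN_13n _ _ _ _ hi] at hD; first | exact ⟨rfl, rfl, by omega⟩ | (exfalso; omega)), by (simp only [DN_13n _ _ _ _ hi]; omega)⟩
      · exact ⟨fun hD => by (simp only [DN_03, DN_13n _ _ _ _ hi] at hD; first | exact ⟨rfl, rfl, by omega⟩ | (exfalso; omega)), by (simp only [DN_03, DN_13n _ _ _ _ hi]; omega)⟩
      · exact ⟨fun hD => by (simp only [DN_23n _ _ _ _ hi, DN_13n _ _ _ _ hi] at hD; first | exact ⟨rfl, rfl, by omega⟩ | (exfalso; omega)), by (simp only [DN_23n _ _ _ _ hi, DN_13n _ _ _ _ hi]; omega)⟩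
      · exact ⟨fun hD => by (simp only [DN_33n _ _ _ _ hi, DN_13n _ _ _ _ hi] at hD; first | exact ⟨rfl, rfl, by omega⟩ | (exfalso; omega)), by (simp only [DN_33n _ _ _ _ hi, DN_13n _ _ _ _ hi]; omega)⟩

theorem good_20 (L h i s S : ℕ) (hL : h + 1 ≤ L) (hh : 1 ≤ h)
    (hu : (2, i, s) ∈ vset L h) (hv : (0, 0, S) ∈ vset L h) :
    Good L h 2 i s 0 0 S := by
  have hu' := hu
  rw [mem_vset] at hu' hv
  have hcases : (S + L + s ≤ (L - S) + (2 * h + 1 - s) ∧ 2 ≤ s) ∨ (S + L + s ≤ (L - S) + (2 * h + 1 - s) ∧ s = 1) ∨ ((L - S) + (2 * h + 1 - s) < S + L + s ∧ s < 2 * h) ∨ ((L - S) + (2 * h + 1 - s) < S + L + s ∧ s = 2 * h) := by omega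
  rcases hcases with hc | hc | hc | hc
  · refine ⟨2, i, s - 1, ?_, ?_, ?_, ?_⟩
    · rw [mem_vset]; omega
    · exact adj_dn _ _ _ _ _ (by norm_num) (by omega)
    · simp only [DN_20]; omega
    · intro t'' i'' s'' hw ha
      rcases nbr2 _ _ _ _ _ _ _ hu hw ha with ⟨rfl, rfl, rfl, hb⟩ | ⟨rfl, rfl, rfl, hb⟩ | ⟨rfl, rfl, rfl, rfl⟩ | ⟨rfl, rfl, rfl, rfl⟩
      · exact ⟨fun hD => by (simp only [DN_20] at hD; first | exact ⟨rfl, rfl, by omega⟩ | (exfalso; omega)), by (simp only [DN_20]; omega)⟩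
      · exact ⟨fun hD => by (simp only [DN_20] at hD; first | exact ⟨rfl, rfl, by omega⟩ | (exfalso; omega)), by (simp only [DN_20]; omega)⟩
      · exact ⟨fun hD => by (simp only [DN_10, DN_20] at hD; first | exact ⟨rfl, rfl, by omega⟩ | (exfalso; omega)), by (simp only [DN_10, DN_20]; omega)⟩
      · exact ⟨fun hD => by (simp only [DN_00, DN_20] at hD; first | exact ⟨rfl, rfl, by omega⟩ | (exfalso; omega)), by (simp only [DN_00, DN_20]; omega)⟩
  · refine ⟨1, i, L, ?_, ?_, ?_, ?_⟩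
    · rw [mem_vset]; omega
    · have hs : s = 1 := by omega
      rw [hs]; exact (adj_12 _ _ _).symm
    · simp only [DN_10, DN_20]; omega
    · intro t'' i'' s'' hw ha
      rcases nbr2 _ _ _ _ _ _ _ hu hw ha with ⟨rfl, rfl, rfl, hb⟩ | ⟨rfl, rfl, rfl, hb⟩ | ⟨rfl, rfl, rfl, rfl⟩ | ⟨rfl, rfl, rfl, rfl⟩
      · exact ⟨fun hD => by (simp only [DN_20] at hD; first | exact ⟨rfl, rfl, by omega⟩ | (exfalso; omega)), by (simp only [DN_20]; omega)⟩
      · exact ⟨fun hD => by (simp only [DN_20] at hD; first | exact ⟨rfl, rfl, by omega⟩ | (exfalso; omega)), by (simp only [DN_20]; omega)⟩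
      · exact ⟨fun hD => by (simp only [DN_10, DN_20] at hD; first | exact ⟨rfl, rfl, by omega⟩ | (exfalso; omega)), by (simp only [DN_10, DN_20]; omega)⟩
      · exact ⟨fun hD => by (simp only [DN_00, DN_20] at hD; first | exact ⟨rfl, rfl, by omega⟩ | (exfalso; omega)), by (simp only [DN_00, DN_20]; omega)⟩
  · refine ⟨2, i, s + 1, ?_, ?_, ?_, ?_⟩
    · rw [mem_vset]; omega
    · exact adj_up _ _ _ _ _ (by norm_num)
    · simp only [DN_20]; omega
    · intro t'' i'' s'' hw ha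
      rcases nbr2 _ _ _ _ _ _ _ hu hw ha with ⟨rfl, rfl, rfl, hb⟩ | ⟨rfl, rfl, rfl, hb⟩ | ⟨rfl, rfl, rfl, rfl⟩ | ⟨rfl, rfl, rfl, rfl⟩
      · exact ⟨fun hD => by (simp only [DN_20] at hD; first | exact ⟨rfl, rfl, by omega⟩ | (exfalso; omega)), by (simp only [DN_20]; omega)⟩
      · exact ⟨fun hD => by (simp only [DN_20] at hD; first | exact ⟨rfl, rfl, by omega⟩ | (exfalso; omega)), by (simp only [DN_20]; omega)⟩
      · exact ⟨fun hD => by (simp only [DN_10, DN_20] at hD; first | exact ⟨rfl, rfl, by omega⟩ | (exfalso; omega)), by (simp only [DN_10, DN_20]; omega)⟩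
      · exact ⟨fun hD => by (simp only [DN_00, DN_20] at hD; first | exact ⟨rfl, rfl, by omega⟩ | (exfalso; omega)), by (simp only [DN_00, DN_20]; omega)⟩
  · refine ⟨0, 0, L, ?_, ?_, ?_, ?_⟩
    · rw [mem_vset]; omega
    · have hs : s = 2 * h := by omega
      rw [hs]; exact (adj_02 _ _ _ _).symm
    · simp only [DN_00, DN_20]; omega
    · intro t'' i'' s'' hw ha
      rcases nbr2 _ _ _ _ _ _ _ hu hw ha with ⟨rfl, rfl, rfl, hb⟩ | ⟨rfl, rfl, rfl, hb⟩ | ⟨rfl, rfl, rfl, rfl⟩ | ⟨rfl, rfl, rfl, rfl⟩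
      · exact ⟨fun hD => by (simp only [DN_20] at hD; first | exact ⟨rfl, rfl, by omega⟩ | (exfalso; omega)), by (simp only [DN_20]; omega)⟩
      · exact ⟨fun hD => by (simp only [DN_20] at hD; first | exact ⟨rfl, rfl, by omega⟩ | (exfalso; omega)), by (simp only [DN_20]; omega)⟩
      · exact ⟨fun hD => by (simp only [DN_10, DN_20] at hD; first | exact ⟨rfl, rfl, by omega⟩ | (exfalso; omega)), by (simp only [DN_10, DN_20]; omega)⟩
      · exact ⟨fun hD => by (simp only [DN_00, DN_20] at hD; first | exact ⟨rfl, rfl, by omega⟩ | (exfalso; omega)), by (simp only [DN_00, DN_20]; omega)⟩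

theorem good_21e (L h i s S : ℕ) (hL : h + 1 ≤ L) (hh : 1 ≤ h)
    (hu : (2, i, s) ∈ vset L h) (hv : (1, i, S) ∈ vset L h) :
    Good L h 2 i s 1 i S := by
  have hu' := hu
  rw [mem_vset] at hu' hv
  have hcases : ((L - S) + s ≤ S + L + (2 * h + 1 - s) ∧ 2 ≤ s) ∨ ((L - S) + s ≤ S + L + (2 * h + 1 - s) ∧ s = 1) ∨ (S + L + (2 * h + 1 - s) < (L - S) + s ∧ s < 2 * h) ∨ (S + L + (2 * h + 1 - s) < (L - S) + s ∧ s = 2 * h) := by omega
  rcases hcases with hc | hc | hc | hc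
  · refine ⟨2, i, s - 1, ?_, ?_, ?_, ?_⟩
    · rw [mem_vset]; omega
    · exact adj_dn _ _ _ _ _ (by norm_num) (by omega)
    · simp only [DN_21e]; omega
    · intro t'' i'' s'' hw ha
      rcases nbr2 _ _ _ _ _ _ _ hu hw ha with ⟨rfl, rfl, rfl, hb⟩ | ⟨rfl, rfl, rfl, hb⟩ | ⟨rfl, rfl, rfl, rfl⟩ | ⟨rfl, rfl, rfl, rfl⟩
      · exact ⟨fun hD => by (simp only [DN_21e] at hD; first | exact ⟨rfl, rfl, by omega⟩ | (exfalso; omega)), by (simp only [DN_21e]; omega)⟩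
      · exact ⟨fun hD => by (simp only [DN_21e] at hD; first | exact ⟨rfl, rfl, by omega⟩ | (exfalso; omega)), by (simp only [DN_21e]; omega)⟩
      · exact ⟨fun hD => by (simp only [DN_11e, DN_21e] at hD; first | exact ⟨rfl, rfl, by omega⟩ | (exfalso; omega)), by (simp only [DN_11e, DN_21e]; omega)⟩
      · exact ⟨fun hD => by (simp only [DN_01, DN_21e] at hD; first | exact ⟨rfl, rfl, by omega⟩ | (exfalso; omega)), by (simp only [DN_01, DN_21e]; omega)⟩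
  · refine ⟨1, i, L, ?_, ?_, ?_, ?_⟩
    · rw [mem_vset]; omega
    · have hs : s = 1 := by omega
      rw [hs]; exact (adj_12 _ _ _).symm
    · simp only [DN_11e, DN_21e]; omega
    · intro t'' i'' s'' hw ha
      rcases nbr2 _ _ _ _ _ _ _ hu hw ha with ⟨rfl, rfl, rfl, hb⟩ | ⟨rfl, rfl, rfl, hb⟩ | ⟨rfl, rfl, rfl, rfl⟩ | ⟨rfl, rfl, rfl, rfl⟩
      · exact ⟨fun hD => by (simp only [DN_21e] at hD; first | exact ⟨rfl, rfl, by omega⟩ | (exfalso; omega)), by (simp only [DN_21e]; omega)⟩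
      · exact ⟨fun hD => by (simp only [DN_21e] at hD; first | exact ⟨rfl, rfl, by omega⟩ | (exfalso; omega)), by (simp only [DN_21e]; omega)⟩
      · exact ⟨fun hD => by (simp only [DN_11e, DN_21e] at hD; first | exact ⟨rfl, rfl, by omega⟩ | (exfalso; omega)), by (simp only [DN_11e, DN_21e]; omega)⟩
      · exact ⟨fun hD => by (simp only [DN_01, DN_21e] at hD; first | exact ⟨rfl, rfl, by omega⟩ | (exfalso; omega)), by (simp only [DN_01, DN_21e]; omega)⟩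
  · refine ⟨2, i, s + 1, ?_, ?_, ?_, ?_⟩
    · rw [mem_vset]; omega
    · exact adj_up _ _ _ _ _ (by norm_num)
    · simp only [DN_21e]; omega
    · intro t'' i'' s'' hw ha
      rcases nbr2 _ _ _ _ _ _ _ hu hw ha with ⟨rfl, rfl, rfl, hb⟩ | ⟨rfl, rfl, rfl, hb⟩ | ⟨rfl, rfl, rfl, rfl⟩ | ⟨rfl, rfl, rfl, rfl⟩
      · exact ⟨fun hD => by (simp only [DN_21e] at hD; first | exact ⟨rfl, rfl, by omega⟩ | (exfalso; omega)), by (simp only [DN_21e]; omega)⟩
      · exact ⟨fun hD => by (simp only [DN_21e] at hD; first | exact ⟨rfl, rfl, by omega⟩ | (exfalso; omega)), by (simp only [DN_21e]; omega)⟩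
      · exact ⟨fun hD => by (simp only [DN_11e, DN_21e] at hD; first | exact ⟨rfl, rfl, by omega⟩ | (exfalso; omega)), by (simp only [DN_11e, DN_21e]; omega)⟩
      · exact ⟨fun hD => by (simp only [DN_01, DN_21e] at hD; first | exact ⟨rfl, rfl, by omega⟩ | (exfalso; omega)), by (simp only [DN_01, DN_21e]; omega)⟩
  · refine ⟨0, 0, L, ?_, ?_, ?_, ?_⟩
    · rw [mem_vset]; omega
    · have hs : s = 2 * h := by omega
      rw [hs]; exact (adj_02 _ _ _ _).symm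
    · simp only [DN_01, DN_21e]; omega
    · intro t'' i'' s'' hw ha
      rcases nbr2 _ _ _ _ _ _ _ hu hw ha with ⟨rfl, rfl, rfl, hb⟩ | ⟨rfl, rfl, rfl, hb⟩ | ⟨rfl, rfl, rfl, rfl⟩ | ⟨rfl, rfl, rfl, rfl⟩
      · exact ⟨fun hD => by (simp only [DN_21e] at hD; first | exact ⟨rfl, rfl, by omega⟩ | (exfalso; omega)), by (simp only [DN_21e]; omega)⟩
      · exact ⟨fun hD => by (simp only [DN_21e] at hD; first | exact ⟨rfl, rfl, by omega⟩ | (exfalso; omega)), by (simp only [DN_21e]; omega)⟩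
      · exact ⟨fun hD => by (simp only [DN_11e, DN_21e] at hD; first | exact ⟨rfl, rfl, by omega⟩ | (exfalso; omega)), by (simp only [DN_11e, DN_21e]; omega)⟩
      · exact ⟨fun hD => by (simp only [DN_01, DN_21e] at hD; first | exact ⟨rfl, rfl, by omega⟩ | (exfalso; omega)), by (simp only [DN_01, DN_21e]; omega)⟩

theorem good_21n (L h i s I S : ℕ) (hL : h + 1 ≤ L) (hh : 1 ≤ h)
    (hi : i ≠ I)
    (hu : (2, i, s) ∈ vset L h) (hv : (1, I, S) ∈ vset L h) :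
    Good L h 2 i s 1 I S := by
  have hu' := hu
  rw [mem_vset] at hu' hv
  have hcases : (s ≤ 2 * h + 1 - s ∧ 2 ≤ s) ∨ (s ≤ 2 * h + 1 - s ∧ s = 1) ∨ (2 * h + 1 - s < s ∧ s < 2 * h) ∨ (2 * h + 1 - s < s ∧ s = 2 * h) := by omega
  rcases hcases with hc | hc | hc | hc
  · refine ⟨2, i, s - 1, ?_, ?_, ?_, ?_⟩
    · rw [mem_vset]; omega
    · exact adj_dn _ _ _ _ _ (by norm_num) (by omega)
    · simp only [DN_21n _ _ _ _ hi]; omega
    · intro t'' i'' s'' hw ha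
      rcases nbr2 _ _ _ _ _ _ _ hu hw ha with ⟨rfl, rfl, rfl, hb⟩ | ⟨rfl, rfl, rfl, hb⟩ | ⟨rfl, rfl, rfl, rfl⟩ | ⟨rfl, rfl, rfl, rfl⟩
      · exact ⟨fun hD => by (simp only [DN_21n _ _ _ _ hi] at hD; first | exact ⟨rfl, rfl, by omega⟩ | (exfalso; omega)), by (simp only [DN_21n _ _ _ _ hi]; omega)⟩
      · exact ⟨fun hD => by (simp only [DN_21n _ _ _ _ hi] at hD; first | exact ⟨rfl, rfl, by omega⟩ | (exfalso; omega)), by (simp only [DN_21n _ _ _ _ hi]; omega)⟩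
      · exact ⟨fun hD => by (simp only [DN_11n _ _ _ _ hi, DN_21n _ _ _ _ hi] at hD; first | exact ⟨rfl, rfl, by omega⟩ | (exfalso; omega)), by (simp only [DN_11n _ _ _ _ hi, DN_21n _ _ _ _ hi]; omega)⟩
      · exact ⟨fun hD => by (simp only [DN_01, DN_21n _ _ _ _ hi] at hD; first | exact ⟨rfl, rfl, by omega⟩ | (exfalso; omega)), by (simp only [DN_01, DN_21n _ _ _ _ hi]; omega)⟩
  · refine ⟨1, i, L, ?_, ?_, ?_, ?_⟩
    · rw [mem_vset]; omega
    · have hs : s = 1 := by omega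
      rw [hs]; exact (adj_12 _ _ _).symm
    · simp only [DN_11n _ _ _ _ hi, DN_21n _ _ _ _ hi]; omega
    · intro t'' i'' s'' hw ha
      rcases nbr2 _ _ _ _ _ _ _ hu hw ha with ⟨rfl, rfl, rfl, hb⟩ | ⟨rfl, rfl, rfl, hb⟩ | ⟨rfl, rfl, rfl, rfl⟩ | ⟨rfl, rfl, rfl, rfl⟩
      · exact ⟨fun hD => by (simp only [DN_21n _ _ _ _ hi] at hD; first | exact ⟨rfl, rfl, by omega⟩ | (exfalso; omega)), by (simp only [DN_21n _ _ _ _ hi]; omega)⟩
      · exact ⟨fun hD => by (simp only [DN_21n _ _ _ _ hi] at hD; first | exact ⟨rfl, rfl, by omega⟩ | (exfalso; omega)), by (simp only [DN_21n _ _ _ _ hi]; omega)⟩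
      · exact ⟨fun hD => by (simp only [DN_11n _ _ _ _ hi, DN_21n _ _ _ _ hi] at hD; first | exact ⟨rfl, rfl, by omega⟩ | (exfalso; omega)), by (simp only [DN_11n _ _ _ _ hi, DN_21n _ _ _ _ hi]; omega)⟩
      · exact ⟨fun hD => by (simp only [DN_01, DN_21n _ _ _ _ hi] at hD; first | exact ⟨rfl, rfl, by omega⟩ | (exfalso; omega)), by (simp only [DN_01, DN_21n _ _ _ _ hi]; omega)⟩
  · refine ⟨2, i, s + 1, ?_, ?_, ?_, ?_⟩
    · rw [mem_vset]; omega
    · exact adj_up _ _ _ _ _ (by norm_num)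
    · simp only [DN_21n _ _ _ _ hi]; omega
    · intro t'' i'' s'' hw ha
      rcases nbr2 _ _ _ _ _ _ _ hu hw ha with ⟨rfl, rfl, rfl, hb⟩ | ⟨rfl, rfl, rfl, hb⟩ | ⟨rfl, rfl, rfl, rfl⟩ | ⟨rfl, rfl, rfl, rfl⟩
      · exact ⟨fun hD => by (simp only [DN_21n _ _ _ _ hi] at hD; first | exact ⟨rfl, rfl, by omega⟩ | (exfalso; omega)), by (simp only [DN_21n _ _ _ _ hi]; omega)⟩
      · exact ⟨fun hD => by (simp only [DN_21n _ _ _ _ hi] at hD; first | exact ⟨rfl, rfl, by omega⟩ | (exfalso; omega)), by (simp only [DN_21n _ _ _ _ hi]; omega)⟩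
      · exact ⟨fun hD => by (simp only [DN_11n _ _ _ _ hi, DN_21n _ _ _ _ hi] at hD; first | exact ⟨rfl, rfl, by omega⟩ | (exfalso; omega)), by (simp only [DN_11n _ _ _ _ hi, DN_21n _ _ _ _ hi]; omega)⟩
      · exact ⟨fun hD => by (simp only [DN_01, DN_21n _ _ _ _ hi] at hD; first | exact ⟨rfl, rfl, by omega⟩ | (exfalso; omega)), by (simp only [DN_01, DN_21n _ _ _ _ hi]; omega)⟩
  · refine ⟨0, 0, L, ?_, ?_, ?_, ?_⟩
    · rw [mem_vset]; omega
    · have hs : s = 2 * h := by omega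
      rw [hs]; exact (adj_02 _ _ _ _).symm
    · simp only [DN_01, DN_21n _ _ _ _ hi]; omega
    · intro t'' i'' s'' hw ha
      rcases nbr2 _ _ _ _ _ _ _ hu hw ha with ⟨rfl, rfl, rfl, hb⟩ | ⟨rfl, rfl, rfl, hb⟩ | ⟨rfl, rfl, rfl, rfl⟩ | ⟨rfl, rfl, rfl, rfl⟩
      · exact ⟨fun hD => by (simp only [DN_21n _ _ _ _ hi] at hD; first | exact ⟨rfl, rfl, by omega⟩ | (exfalso; omega)), by (simp only [DN_21n _ _ _ _ hi]; omega)⟩
      · exact ⟨fun hD => by (simp only [DN_21n _ _ _ _ hi] at hD; first | exact ⟨rfl, rfl, by omega⟩ | (exfalso; omega)), by (simp only [DN_21n _ _ _ _ hi]; omega)⟩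
      · exact ⟨fun hD => by (simp only [DN_11n _ _ _ _ hi, DN_21n _ _ _ _ hi] at hD; first | exact ⟨rfl, rfl, by omega⟩ | (exfalso; omega)), by (simp only [DN_11n _ _ _ _ hi, DN_21n _ _ _ _ hi]; omega)⟩
      · exact ⟨fun hD => by (simp only [DN_01, DN_21n _ _ _ _ hi] at hD; first | exact ⟨rfl, rfl, by omega⟩ | (exfalso; omega)), by (simp only [DN_01, DN_21n _ _ _ _ hi]; omega)⟩

theorem good_22e (L h i s S : ℕ) (hL : h + 1 ≤ L) (hh : 1 ≤ h)
    (hne : s ≠ S)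
    (hu : (2, i, s) ∈ vset L h) (hv : (2, i, S) ∈ vset L h) :
    Good L h 2 i s 2 i S := by
  have hu' := hu
  rw [mem_vset] at hu' hv
  have hcases : (s < S) ∨ (S < s) := by omega
  rcases hcases with hc | hc
  · refine ⟨2, i, s + 1, ?_, ?_, ?_, ?_⟩
    · rw [mem_vset]; omega
    · exact adj_up _ _ _ _ _ (by norm_num)
    · simp only [DN_22e]; omega
    · intro t'' i'' s'' hw ha
      rcases nbr2 _ _ _ _ _ _ _ hu hw ha with ⟨rfl, rfl, rfl, hb⟩ | ⟨rfl, rfl, rfl, hb⟩ | ⟨rfl, rfl, rfl, rfl⟩ | ⟨rfl, rfl, rfl, rfl⟩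
      · exact ⟨fun hD => by (simp only [DN_22e] at hD; first | exact ⟨rfl, rfl, by omega⟩ | (exfalso; omega)), by (simp only [DN_22e]; omega)⟩
      · exact ⟨fun hD => by (simp only [DN_22e] at hD; first | exact ⟨rfl, rfl, by omega⟩ | (exfalso; omega)), by (simp only [DN_22e]; omega)⟩
      · exact ⟨fun hD => by (simp only [DN_12e, DN_22e] at hD; first | exact ⟨rfl, rfl, by omega⟩ | (exfalso; omega)), by (simp only [DN_12e, DN_22e]; omega)⟩
      · exact ⟨fun hD => by (simp only [DN_02, DN_22e] at hD; first | exact ⟨rfl, rfl, by omega⟩ | (exfalso; omega)), by (simp only [DN_02, DN_22e]; omega)⟩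
  · refine ⟨2, i, s - 1, ?_, ?_, ?_, ?_⟩
    · rw [mem_vset]; omega
    · exact adj_dn _ _ _ _ _ (by norm_num) (by omega)
    · simp only [DN_22e]; omega
    · intro t'' i'' s'' hw ha
      rcases nbr2 _ _ _ _ _ _ _ hu hw ha with ⟨rfl, rfl, rfl, hb⟩ | ⟨rfl, rfl, rfl, hb⟩ | ⟨rfl, rfl, rfl, rfl⟩ | ⟨rfl, rfl, rfl, rfl⟩
      · exact ⟨fun hD => by (simp only [DN_22e] at hD; first | exact ⟨rfl, rfl, by omega⟩ | (exfalso; omega)), by (simp only [DN_22e]; omega)⟩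
      · exact ⟨fun hD => by (simp only [DN_22e] at hD; first | exact ⟨rfl, rfl, by omega⟩ | (exfalso; omega)), by (simp only [DN_22e]; omega)⟩
      · exact ⟨fun hD => by (simp only [DN_12e, DN_22e] at hD; first | exact ⟨rfl, rfl, by omega⟩ | (exfalso; omega)), by (simp only [DN_12e, DN_22e]; omega)⟩
      · exact ⟨fun hD => by (simp only [DN_02, DN_22e] at hD; first | exact ⟨rfl, rfl, by omega⟩ | (exfalso; omega)), by (simp only [DN_02, DN_22e]; omega)⟩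

theorem good_22n (L h i s I S : ℕ) (hL : h + 1 ≤ L) (hh : 1 ≤ h)
    (hi : i ≠ I)
    (hu : (2, i, s) ∈ vset L h) (hv : (2, I, S) ∈ vset L h) :
    Good L h 2 i s 2 I S := by
  have hu' := hu
  rw [mem_vset] at hu' hv
  have hcases : (s + (2 * h + 1) + S ≤ (2 * h + 1 - s) + (2 * h + 1 - S) ∧ 2 ≤ s) ∨ (s + (2 * h + 1) + S ≤ (2 * h + 1 - s) + (2 * h + 1 - S) ∧ s = 1) ∨ ((2 * h + 1 - s) + (2 * h + 1 - S) < s + (2 * h + 1) + S ∧ s < 2 * h) ∨ ((2 * h + 1 - s) + (2 * h + 1 - S) < s + (2 * h + 1) + S ∧ s = 2 * h) := by omega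
  rcases hcases with hc | hc | hc | hc
  · refine ⟨2, i, s - 1, ?_, ?_, ?_, ?_⟩
    · rw [mem_vset]; omega
    · exact adj_dn _ _ _ _ _ (by norm_num) (by omega)
    · simp only [DN_22n _ _ _ _ hi]; omega
    · intro t'' i'' s'' hw ha
      rcases nbr2 _ _ _ _ _ _ _ hu hw ha with ⟨rfl, rfl, rfl, hb⟩ | ⟨rfl, rfl, rfl, hb⟩ | ⟨rfl, rfl, rfl, rfl⟩ | ⟨rfl, rfl, rfl, rfl⟩
      · exact ⟨fun hD => by (simp only [DN_22n _ _ _ _ hi] at hD; first | exact ⟨rfl, rfl, by omega⟩ | (exfalso; omega)), by (simp only [DN_22n _ _ _ _ hi]; omega)⟩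
      · exact ⟨fun hD => by (simp only [DN_22n _ _ _ _ hi] at hD; first | exact ⟨rfl, rfl, by omega⟩ | (exfalso; omega)), by (simp only [DN_22n _ _ _ _ hi]; omega)⟩
      · exact ⟨fun hD => by (simp only [DN_12n _ _ _ _ hi, DN_22n _ _ _ _ hi] at hD; first | exact ⟨rfl, rfl, by omega⟩ | (exfalso; omega)), by (simp only [DN_12n _ _ _ _ hi, DN_22n _ _ _ _ hi]; omega)⟩
      · exact ⟨fun hD => by (simp only [DN_02, DN_22n _ _ _ _ hi] at hD; first | exact ⟨rfl, rfl, by omega⟩ | (exfalso; omega)), by (simp only [DN_02, DN_22n _ _ _ _ hi]; omega)⟩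
  · refine ⟨1, i, L, ?_, ?_, ?_, ?_⟩
    · rw [mem_vset]; omega
    · have hs : s = 1 := by omega
      rw [hs]; exact (adj_12 _ _ _).symm
    · simp only [DN_12n _ _ _ _ hi, DN_22n _ _ _ _ hi]; omega
    · intro t'' i'' s'' hw ha
      rcases nbr2 _ _ _ _ _ _ _ hu hw ha with ⟨rfl, rfl, rfl, hb⟩ | ⟨rfl, rfl, rfl, hb⟩ | ⟨rfl, rfl, rfl, rfl⟩ | ⟨rfl, rfl, rfl, rfl⟩
      · exact ⟨fun hD => by (simp only [DN_22n _ _ _ _ hi] at hD; first | exact ⟨rfl, rfl, by omega⟩ | (exfalso; omega)), by (simp only [DN_22n _ _ _ _ hi]; omega)⟩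
      · exact ⟨fun hD => by (simp only [DN_22n _ _ _ _ hi] at hD; first | exact ⟨rfl, rfl, by omega⟩ | (exfalso; omega)), by (simp only [DN_22n _ _ _ _ hi]; omega)⟩
      · exact ⟨fun hD => by (simp only [DN_12n _ _ _ _ hi, DN_22n _ _ _ _ hi] at hD; first | exact ⟨rfl, rfl, by omega⟩ | (exfalso; omega)), by (simp only [DN_12n _ _ _ _ hi, DN_22n _ _ _ _ hi]; omega)⟩
      · exact ⟨fun hD => by (simp only [DN_02, DN_22n _ _ _ _ hi] at hD; first | exact ⟨rfl, rfl, by omega⟩ | (exfalso; omega)), by (simp only [DN_02, DN_22n _ _ _ _ hi]; omega)⟩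
  · refine ⟨2, i, s + 1, ?_, ?_, ?_, ?_⟩
    · rw [mem_vset]; omega
    · exact adj_up _ _ _ _ _ (by norm_num)
    · simp only [DN_22n _ _ _ _ hi]; omega
    · intro t'' i'' s'' hw ha
      rcases nbr2 _ _ _ _ _ _ _ hu hw ha with ⟨rfl, rfl, rfl, hb⟩ | ⟨rfl, rfl, rfl, hb⟩ | ⟨rfl, rfl, rfl, rfl⟩ | ⟨rfl, rfl, rfl, rfl⟩
      · exact ⟨fun hD => by (simp only [DN_22n _ _ _ _ hi] at hD; first | exact ⟨rfl, rfl, by omega⟩ | (exfalso; omega)), by (simp only [DN_22n _ _ _ _ hi]; omega)⟩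
      · exact ⟨fun hD => by (simp only [DN_22n _ _ _ _ hi] at hD; first | exact ⟨rfl, rfl, by omega⟩ | (exfalso; omega)), by (simp only [DN_22n _ _ _ _ hi]; omega)⟩
      · exact ⟨fun hD => by (simp only [DN_12n _ _ _ _ hi, DN_22n _ _ _ _ hi] at hD; first | exact ⟨rfl, rfl, by omega⟩ | (exfalso; omega)), by (simp only [DN_12n _ _ _ _ hi, DN_22n _ _ _ _ hi]; omega)⟩
      · exact ⟨fun hD => by (simp only [DN_02, DN_22n _ _ _ _ hi] at hD; first | exact ⟨rfl, rfl, by omega⟩ | (exfalso; omega)), by (simp only [DN_02, DN_22n _ _ _ _ hi]; omega)⟩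
  · refine ⟨0, 0, L, ?_, ?_, ?_, ?_⟩
    · rw [mem_vset]; omega
    · have hs : s = 2 * h := by omega
      rw [hs]; exact (adj_02 _ _ _ _).symm
    · simp only [DN_02, DN_22n _ _ _ _ hi]; omega
    · intro t'' i'' s'' hw ha
      rcases nbr2 _ _ _ _ _ _ _ hu hw ha with ⟨rfl, rfl, rfl, hb⟩ | ⟨rfl, rfl, rfl, hb⟩ | ⟨rfl, rfl, rfl, rfl⟩ | ⟨rfl, rfl, rfl, rfl⟩
      · exact ⟨fun hD => by (simp only [DN_22n _ _ _ _ hi] at hD; first | exact ⟨rfl, rfl, by omega⟩ | (exfalso; omega)), by (simp only [DN_22n _ _ _ _ hi]; omega)⟩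
      · exact ⟨fun hD => by (simp only [DN_22n _ _ _ _ hi] at hD; first | exact ⟨rfl, rfl, by omega⟩ | (exfalso; omega)), by (simp only [DN_22n _ _ _ _ hi]; omega)⟩
      · exact ⟨fun hD => by (simp only [DN_12n _ _ _ _ hi, DN_22n _ _ _ _ hi] at hD; first | exact ⟨rfl, rfl, by omega⟩ | (exfalso; omega)), by (simp only [DN_12n _ _ _ _ hi, DN_22n _ _ _ _ hi]; omega)⟩
      · exact ⟨fun hD => by (simp only [DN_02, DN_22n _ _ _ _ hi] at hD; first | exact ⟨rfl, rfl, by omega⟩ | (exfalso; omega)), by (simp only [DN_02, DN_22n _ _ _ _ hi]; omega)⟩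

theorem good_23e (L h i s S : ℕ) (hL : h + 1 ≤ L) (hh : 1 ≤ h)
    (hu : (2, i, s) ∈ vset L h) (hv : (3, i, S) ∈ vset L h) :
    Good L h 2 i s 3 i S := by
  have hu' := hu
  rw [mem_vset] at hu' hv
  have hcases : (2 ≤ s) ∨ (s = 1) := by omega
  rcases hcases with hc | hc
  · refine ⟨2, i, s - 1, ?_, ?_, ?_, ?_⟩
    · rw [mem_vset]; omega
    · exact adj_dn _ _ _ _ _ (by norm_num) (by omega)
    · simp only [DN_23e]; omega
    · intro t'' i'' s'' hw ha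
      rcases nbr2 _ _ _ _ _ _ _ hu hw ha with ⟨rfl, rfl, rfl, hb⟩ | ⟨rfl, rfl, rfl, hb⟩ | ⟨rfl, rfl, rfl, rfl⟩ | ⟨rfl, rfl, rfl, rfl⟩
      · exact ⟨fun hD => by (simp only [DN_23e] at hD; first | exact ⟨rfl, rfl, by omega⟩ | (exfalso; omega)), by (simp only [DN_23e]; omega)⟩
      · exact ⟨fun hD => by (simp only [DN_23e] at hD; first | exact ⟨rfl, rfl, by omega⟩ | (exfalso; omega)), by (simp only [DN_23e]; omega)⟩
      · exact ⟨fun hD => by (simp only [DN_13e, DN_23e] at hD; first | exact ⟨rfl, rfl, by omega⟩ | (exfalso; omega)), by (simp only [DN_13e, DN_23e]; omega)⟩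
      · exact ⟨fun hD => by (simp only [DN_03, DN_23e] at hD; first | exact ⟨rfl, rfl, by omega⟩ | (exfalso; omega)), by (simp only [DN_03, DN_23e]; omega)⟩
  · refine ⟨1, i, L, ?_, ?_, ?_, ?_⟩
    · rw [mem_vset]; omega
    · have hs : s = 1 := by omega
      rw [hs]; exact (adj_12 _ _ _).symm
    · simp only [DN_13e, DN_23e]; omega
    · intro t'' i'' s'' hw ha
      rcases nbr2 _ _ _ _ _ _ _ hu hw ha with ⟨rfl, rfl, rfl, hb⟩ | ⟨rfl, rfl, rfl, hb⟩ | ⟨rfl, rfl, rfl, rfl⟩ | ⟨rfl, rfl, rfl, rfl⟩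
      · exact ⟨fun hD => by (simp only [DN_23e] at hD; first | exact ⟨rfl, rfl, by omega⟩ | (exfalso; omega)), by (simp only [DN_23e]; omega)⟩
      · exact ⟨fun hD => by (simp only [DN_23e] at hD; first | exact ⟨rfl, rfl, by omega⟩ | (exfalso; omega)), by (simp only [DN_23e]; omega)⟩
      · exact ⟨fun hD => by (simp only [DN_13e, DN_23e] at hD; first | exact ⟨rfl, rfl, by omega⟩ | (exfalso; omega)), by (simp only [DN_13e, DN_23e]; omega)⟩
      · exact ⟨fun hD => by (simp only [DN_03, DN_23e] at hD; first | exact ⟨rfl, rfl, by omega⟩ | (exfalso; omega)), by (simp only [DN_03, DN_23e]; omega)⟩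

theorem good_23n (L h i s I S : ℕ) (hL : h + 1 ≤ L) (hh : 1 ≤ h)
    (hi : i ≠ I)
    (hu : (2, i, s) ∈ vset L h) (hv : (3, I, S) ∈ vset L h) :
    Good L h 2 i s 3 I S := by
  have hu' := hu
  rw [mem_vset] at hu' hv
  have hcases : (s + (2 * h + 1 - S) ≤ (2 * h + 1 - s) + (2 * h + 1) + S ∧ 2 ≤ s) ∨ (s + (2 * h + 1 - S) ≤ (2 * h + 1 - s) + (2 * h + 1) + S ∧ s = 1) ∨ ((2 * h + 1 - s) + (2 * h + 1) + S < s + (2 * h + 1 - S) ∧ s < 2 * h) ∨ ((2 * h + 1 - s) + (2 * h + 1) + S < s + (2 * h + 1 - S) ∧ s = 2 * h) := by omega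
  rcases hcases with hc | hc | hc | hc
  · refine ⟨2, i, s - 1, ?_, ?_, ?_, ?_⟩
    · rw [mem_vset]; omega
    · exact adj_dn _ _ _ _ _ (by norm_num) (by omega)
    · simp only [DN_23n _ _ _ _ hi]; omega
    · intro t'' i'' s'' hw ha
      rcases nbr2 _ _ _ _ _ _ _ hu hw ha with ⟨rfl, rfl, rfl, hb⟩ | ⟨rfl, rfl, rfl, hb⟩ | ⟨rfl, rfl, rfl, rfl⟩ | ⟨rfl, rfl, rfl, rfl⟩
      · exact ⟨fun hD => by (simp only [DN_23n _ _ _ _ hi] at hD; first | exact ⟨rfl, rfl, by omega⟩ | (exfalso; omega)), by (simp only [DN_23n _ _ _ _ hi]; omega)⟩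
      · exact ⟨fun hD => by (simp only [DN_23n _ _ _ _ hi] at hD; first | exact ⟨rfl, rfl, by omega⟩ | (exfalso; omega)), by (simp only [DN_23n _ _ _ _ hi]; omega)⟩
      · exact ⟨fun hD => by (simp only [DN_13n _ _ _ _ hi, DN_23n _ _ _ _ hi] at hD; first | exact ⟨rfl, rfl, by omega⟩ | (exfalso; omega)), by (simp only [DN_13n _ _ _ _ hi, DN_23n _ _ _ _ hi]; omega)⟩
      · exact ⟨fun hD => by (simp only [DN_03, DN_23n _ _ _ _ hi] at hD; first | exact ⟨rfl, rfl, by omega⟩ | (exfalso; omega)), by (simp only [DN_03, DN_23n _ _ _ _ hi]; omega)⟩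
  · refine ⟨1, i, L, ?_, ?_, ?_, ?_⟩
    · rw [mem_vset]; omega
    · have hs : s = 1 := by omega
      rw [hs]; exact (adj_12 _ _ _).symm
    · simp only [DN_13n _ _ _ _ hi, DN_23n _ _ _ _ hi]; omega
    · intro t'' i'' s'' hw ha
      rcases nbr2 _ _ _ _ _ _ _ hu hw ha with ⟨rfl, rfl, rfl, hb⟩ | ⟨rfl, rfl, rfl, hb⟩ | ⟨rfl, rfl, rfl, rfl⟩ | ⟨rfl, rfl, rfl, rfl⟩
      · exact ⟨fun hD => by (simp only [DN_23n _ _ _ _ hi] at hD; first | exact ⟨rfl, rfl, by omega⟩ | (exfalso; omega)), by (simp only [DN_23n _ _ _ _ hi]; omega)⟩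
      · exact ⟨fun hD => by (simp only [DN_23n _ _ _ _ hi] at hD; first | exact ⟨rfl, rfl, by omega⟩ | (exfalso; omega)), by (simp only [DN_23n _ _ _ _ hi]; omega)⟩
      · exact ⟨fun hD => by (simp only [DN_13n _ _ _ _ hi, DN_23n _ _ _ _ hi] at hD; first | exact ⟨rfl, rfl, by omega⟩ | (exfalso; omega)), by (simp only [DN_13n _ _ _ _ hi, DN_23n _ _ _ _ hi]; omega)⟩
      · exact ⟨fun hD => by (simp only [DN_03, DN_23n _ _ _ _ hi] at hD; first | exact ⟨rfl, rfl, by omega⟩ | (exfalso; omega)), by (simp only [DN_03, DN_23n _ _ _ _ hi]; omega)⟩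
  · refine ⟨2, i, s + 1, ?_, ?_, ?_, ?_⟩
    · rw [mem_vset]; omega
    · exact adj_up _ _ _ _ _ (by norm_num)
    · simp only [DN_23n _ _ _ _ hi]; omega
    · intro t'' i'' s'' hw ha
      rcases nbr2 _ _ _ _ _ _ _ hu hw ha with ⟨rfl, rfl, rfl, hb⟩ | ⟨rfl, rfl, rfl, hb⟩ | ⟨rfl, rfl, rfl, rfl⟩ | ⟨rfl, rfl, rfl, rfl⟩
      · exact ⟨fun hD => by (simp only [DN_23n _ _ _ _ hi] at hD; first | exact ⟨rfl, rfl, by omega⟩ | (exfalso; omega)), by (simp only [DN_23n _ _ _ _ hi]; omega)⟩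
      · exact ⟨fun hD => by (simp only [DN_23n _ _ _ _ hi] at hD; first | exact ⟨rfl, rfl, by omega⟩ | (exfalso; omega)), by (simp only [DN_23n _ _ _ _ hi]; omega)⟩
      · exact ⟨fun hD => by (simp only [DN_13n _ _ _ _ hi, DN_23n _ _ _ _ hi] at hD; first | exact ⟨rfl, rfl, by omega⟩ | (exfalso; omega)), by (simp only [DN_13n _ _ _ _ hi, DN_23n _ _ _ _ hi]; omega)⟩
      · exact ⟨fun hD => by (simp only [DN_03, DN_23n _ _ _ _ hi] at hD; first | exact ⟨rfl, rfl, by omega⟩ | (exfalso; omega)), by (simp only [DN_03, DN_23n _ _ _ _ hi]; omega)⟩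
  · refine ⟨0, 0, L, ?_, ?_, ?_, ?_⟩
    · rw [mem_vset]; omega
    · have hs : s = 2 * h := by omega
      rw [hs]; exact (adj_02 _ _ _ _).symm
    · simp only [DN_03, DN_23n _ _ _ _ hi]; omega
    · intro t'' i'' s'' hw ha
      rcases nbr2 _ _ _ _ _ _ _ hu hw ha with ⟨rfl, rfl, rfl, hb⟩ | ⟨rfl, rfl, rfl, hb⟩ | ⟨rfl, rfl, rfl, rfl⟩ | ⟨rfl, rfl, rfl, rfl⟩
      · exact ⟨fun hD => by (simp only [DN_23n _ _ _ _ hi] at hD; first | exact ⟨rfl, rfl, by omega⟩ | (exfalso; omega)), by (simp only [DN_23n _ _ _ _ hi]; omega)⟩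
      · exact ⟨fun hD => by (simp only [DN_23n _ _ _ _ hi] at hD; first | exact ⟨rfl, rfl, by omega⟩ | (exfalso; omega)), by (simp only [DN_23n _ _ _ _ hi]; omega)⟩
      · exact ⟨fun hD => by (simp only [DN_13n _ _ _ _ hi, DN_23n _ _ _ _ hi] at hD; first | exact ⟨rfl, rfl, by omega⟩ | (exfalso; omega)), by (simp only [DN_13n _ _ _ _ hi, DN_23n _ _ _ _ hi]; omega)⟩
      · exact ⟨fun hD => by (simp only [DN_03, DN_23n _ _ _ _ hi] at hD; first | exact ⟨rfl, rfl, by omega⟩ | (exfalso; omega)), by (simp only [DN_03, DN_23n _ _ _ _ hi]; omega)⟩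

theorem good_30 (L h i s S : ℕ) (hL : h + 1 ≤ L) (hh : 1 ≤ h)
    (hu : (3, i, s) ∈ vset L h) (hv : (0, 0, S) ∈ vset L h) :
    Good L h 3 i s 0 0 S := by
  have hu' := hu
  rw [mem_vset] at hu' hv
  have hcases : (2 ≤ s) ∨ (s = 1) := by omega
  rcases hcases with hc | hc
  · refine ⟨3, i, s - 1, ?_, ?_, ?_, ?_⟩
    · rw [mem_vset]; omega
    · exact adj_dn _ _ _ _ _ (by norm_num) (by omega)
    · simp only [DN_30]; omega
    · intro t'' i'' s'' hw ha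
      rcases nbr3 _ _ _ _ _ _ _ hu hw ha with ⟨rfl, rfl, rfl, hb⟩ | ⟨rfl, rfl, rfl, hb⟩ | ⟨rfl, rfl, rfl, rfl⟩ | ⟨rfl, hk, rfl, rfl⟩
      · exact ⟨fun hD => by (simp only [DN_30] at hD; first | exact ⟨rfl, rfl, by omega⟩ | (exfalso; omega)), by (simp only [DN_30]; omega)⟩
      · exact ⟨fun hD => by (simp only [DN_30] at hD; first | exact ⟨rfl, rfl, by omega⟩ | (exfalso; omega)), by (simp only [DN_30]; omega)⟩
      · exact ⟨fun hD => by (simp only [DN_10, DN_30] at hD; first | exact ⟨rfl, rfl, by omega⟩ | (exfalso; omega)), by (simp only [DN_10, DN_30]; omega)⟩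
      · exact ⟨fun hD => by (simp only [DN_30] at hD; first | exact ⟨rfl, rfl, by omega⟩ | (exfalso; omega)), by (simp only [DN_30]; omega)⟩
  · refine ⟨1, i, L, ?_, ?_, ?_, ?_⟩
    · rw [mem_vset]; omega
    · have hs : s = 1 := by omega
      rw [hs]; exact (adj_13 _ _ _).symm
    · simp only [DN_10, DN_30]; omega
    · intro t'' i'' s'' hw ha
      rcases nbr3 _ _ _ _ _ _ _ hu hw ha with ⟨rfl, rfl, rfl, hb⟩ | ⟨rfl, rfl, rfl, hb⟩ | ⟨rfl, rfl, rfl, rfl⟩ | ⟨rfl, hk, rfl, rfl⟩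
      · exact ⟨fun hD => by (simp only [DN_30] at hD; first | exact ⟨rfl, rfl, by omega⟩ | (exfalso; omega)), by (simp only [DN_30]; omega)⟩
      · exact ⟨fun hD => by (simp only [DN_30] at hD; first | exact ⟨rfl, rfl, by omega⟩ | (exfalso; omega)), by (simp only [DN_30]; omega)⟩
      · exact ⟨fun hD => by (simp only [DN_10, DN_30] at hD; first | exact ⟨rfl, rfl, by omega⟩ | (exfalso; omega)), by (simp only [DN_10, DN_30]; omega)⟩
      · exact ⟨fun hD => by (simp only [DN_30] at hD; first | exact ⟨rfl, rfl, by omega⟩ | (exfalso; omega)), by (simp only [DN_30]; omega)⟩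

theorem good_31e (L h i s S : ℕ) (hL : h + 1 ≤ L) (hh : 1 ≤ h)
    (hu : (3, i, s) ∈ vset L h) (hv : (1, i, S) ∈ vset L h) :
    Good L h 3 i s 1 i S := by
  have hu' := hu
  rw [mem_vset] at hu' hv
  have hcases : (2 ≤ s) ∨ (s = 1) := by omega
  rcases hcases with hc | hc
  · refine ⟨3, i, s - 1, ?_, ?_, ?_, ?_⟩
    · rw [mem_vset]; omega
    · exact adj_dn _ _ _ _ _ (by norm_num) (by omega)
    · simp only [DN_31e]; omega
    · intro t'' i'' s'' hw ha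
      rcases nbr3 _ _ _ _ _ _ _ hu hw ha with ⟨rfl, rfl, rfl, hb⟩ | ⟨rfl, rfl, rfl, hb⟩ | ⟨rfl, rfl, rfl, rfl⟩ | ⟨rfl, hk, rfl, rfl⟩
      · exact ⟨fun hD => by (simp only [DN_31e] at hD; first | exact ⟨rfl, rfl, by omega⟩ | (exfalso; omega)), by (simp only [DN_31e]; omega)⟩
      · exact ⟨fun hD => by (simp only [DN_31e] at hD; first | exact ⟨rfl, rfl, by omega⟩ | (exfalso; omega)), by (simp only [DN_31e]; omega)⟩
      · exact ⟨fun hD => by (simp only [DN_11e, DN_31e] at hD; first | exact ⟨rfl, rfl, by omega⟩ | (exfalso; omega)), by (simp only [DN_11e, DN_31e]; omega)⟩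
      · exact ⟨fun hD => by (simp only [DN_31n _ _ _ _ (Ne.symm hk), DN_31e] at hD; first | exact ⟨rfl, rfl, by omega⟩ | (exfalso; omega)), by (simp only [DN_31n _ _ _ _ (Ne.symm hk), DN_31e]; omega)⟩
  · refine ⟨1, i, L, ?_, ?_, ?_, ?_⟩
    · rw [mem_vset]; omega
    · have hs : s = 1 := by omega
      rw [hs]; exact (adj_13 _ _ _).symm
    · simp only [DN_11e, DN_31e]; omega
    · intro t'' i'' s'' hw ha
      rcases nbr3 _ _ _ _ _ _ _ hu hw ha with ⟨rfl, rfl, rfl, hb⟩ | ⟨rfl, rfl, rfl, hb⟩ | ⟨rfl, rfl, rfl, rfl⟩ | ⟨rfl, hk, rfl, rfl⟩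
      · exact ⟨fun hD => by (simp only [DN_31e] at hD; first | exact ⟨rfl, rfl, by omega⟩ | (exfalso; omega)), by (simp only [DN_31e]; omega)⟩
      · exact ⟨fun hD => by (simp only [DN_31e] at hD; first | exact ⟨rfl, rfl, by omega⟩ | (exfalso; omega)), by (simp only [DN_31e]; omega)⟩
      · exact ⟨fun hD => by (simp only [DN_11e, DN_31e] at hD; first | exact ⟨rfl, rfl, by omega⟩ | (exfalso; omega)), by (simp only [DN_11e, DN_31e]; omega)⟩
      · exact ⟨fun hD => by (simp only [DN_31n _ _ _ _ (Ne.symm hk), DN_31e] at hD; first | exact ⟨rfl, rfl, by omega⟩ | (exfalso; omega)), by (simp only [DN_31n _ _ _ _ (Ne.symm hk), DN_31e]; omega)⟩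

theorem good_32e (L h i s S : ℕ) (hL : h + 1 ≤ L) (hh : 1 ≤ h)
    (hu : (3, i, s) ∈ vset L h) (hv : (2, i, S) ∈ vset L h) :
    Good L h 3 i s 2 i S := by
  have hu' := hu
  rw [mem_vset] at hu' hv
  have hcases : (2 ≤ s) ∨ (s = 1) := by omega
  rcases hcases with hc | hc
  · refine ⟨3, i, s - 1, ?_, ?_, ?_, ?_⟩
    · rw [mem_vset]; omega
    · exact adj_dn _ _ _ _ _ (by norm_num) (by omega)
    · simp only [DN_32e]; omega
    · intro t'' i'' s'' hw ha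
      rcases nbr3 _ _ _ _ _ _ _ hu hw ha with ⟨rfl, rfl, rfl, hb⟩ | ⟨rfl, rfl, rfl, hb⟩ | ⟨rfl, rfl, rfl, rfl⟩ | ⟨rfl, hk, rfl, rfl⟩
      · exact ⟨fun hD => by (simp only [DN_32e] at hD; first | exact ⟨rfl, rfl, by omega⟩ | (exfalso; omega)), by (simp only [DN_32e]; omega)⟩
      · exact ⟨fun hD => by (simp only [DN_32e] at hD; first | exact ⟨rfl, rfl, by omega⟩ | (exfalso; omega)), by (simp only [DN_32e]; omega)⟩
      · exact ⟨fun hD => by (simp only [DN_12e, DN_32e] at hD; first | exact ⟨rfl, rfl, by omega⟩ | (exfalso; omega)), by (simp only [DN_12e, DN_32e]; omega)⟩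
      · exact ⟨fun hD => by (simp only [DN_32n _ _ _ _ (Ne.symm hk), DN_32e] at hD; first | exact ⟨rfl, rfl, by omega⟩ | (exfalso; omega)), by (simp only [DN_32n _ _ _ _ (Ne.symm hk), DN_32e]; omega)⟩
  · refine ⟨1, i, L, ?_, ?_, ?_, ?_⟩
    · rw [mem_vset]; omega
    · have hs : s = 1 := by omega
      rw [hs]; exact (adj_13 _ _ _).symm
    · simp only [DN_12e, DN_32e]; omega
    · intro t'' i'' s'' hw ha
      rcases nbr3 _ _ _ _ _ _ _ hu hw ha with ⟨rfl, rfl, rfl, hb⟩ | ⟨rfl, rfl, rfl, hb⟩ | ⟨rfl, rfl, rfl, rfl⟩ | ⟨rfl, hk, rfl, rfl⟩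
      · exact ⟨fun hD => by (simp only [DN_32e] at hD; first | exact ⟨rfl, rfl, by omega⟩ | (exfalso; omega)), by (simp only [DN_32e]; omega)⟩
      · exact ⟨fun hD => by (simp only [DN_32e] at hD; first | exact ⟨rfl, rfl, by omega⟩ | (exfalso; omega)), by (simp only [DN_32e]; omega)⟩
      · exact ⟨fun hD => by (simp only [DN_12e, DN_32e] at hD; first | exact ⟨rfl, rfl, by omega⟩ | (exfalso; omega)), by (simp only [DN_12e, DN_32e]; omega)⟩
      · exact ⟨fun hD => by (simp only [DN_32n _ _ _ _ (Ne.symm hk), DN_32e] at hD; first | exact ⟨rfl, rfl, by omega⟩ | (exfalso; omega)), by (simp only [DN_32n _ _ _ _ (Ne.symm hk), DN_32e]; omega)⟩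

theorem good_31n (L h i s I S : ℕ) (hL : h + 1 ≤ L) (hh : 1 ≤ h)
    (hi : i ≠ I)
    (hu : (3, i, s) ∈ vset L h) (hv : (1, I, S) ∈ vset L h) :
    Good L h 3 i s 1 I S := by
  have hu' := hu
  rw [mem_vset] at hu' hv
  have hcases : ((L - S) + (2 * h + 1 - s) ≤ S + L + s ∧ s < h) ∨ ((L - S) + (2 * h + 1 - s) ≤ S + L + s ∧ s = h) ∨ (S + L + s < (L - S) + (2 * h + 1 - s) ∧ 2 ≤ s) ∨ (S + L + s < (L - S) + (2 * h + 1 - s) ∧ s = 1) := by omega
  rcases hcases with hc | hc | hc | hc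
  · refine ⟨3, i, s + 1, ?_, ?_, ?_, ?_⟩
    · rw [mem_vset]; omega
    · exact adj_up _ _ _ _ _ (by norm_num)
    · simp only [DN_31n _ _ _ _ hi]; omega
    · intro t'' i'' s'' hw ha
      rcases nbr3 _ _ _ _ _ _ _ hu hw ha with ⟨rfl, rfl, rfl, hb⟩ | ⟨rfl, rfl, rfl, hb⟩ | ⟨rfl, rfl, rfl, rfl⟩ | ⟨rfl, hk, rfl, rfl⟩
      · exact ⟨fun hD => by (simp only [DN_31n _ _ _ _ hi] at hD; first | exact ⟨rfl, rfl, by omega⟩ | (exfalso; omega)), by (simp only [DN_31n _ _ _ _ hi]; omega)⟩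
      · exact ⟨fun hD => by (simp only [DN_31n _ _ _ _ hi] at hD; first | exact ⟨rfl, rfl, by omega⟩ | (exfalso; omega)), by (simp only [DN_31n _ _ _ _ hi]; omega)⟩
      · exact ⟨fun hD => by (simp only [DN_11n _ _ _ _ hi, DN_31n _ _ _ _ hi] at hD; first | exact ⟨rfl, rfl, by omega⟩ | (exfalso; omega)), by (simp only [DN_11n _ _ _ _ hi, DN_31n _ _ _ _ hi]; omega)⟩
      · by_cases hi' : i'' = I
        · subst hi'; exact ⟨fun hD => by (simp only [DN_31e, DN_31n _ _ _ _ hi] at hD; first | exact ⟨rfl, rfl, by omega⟩ | (exfalso; omega)), by (simp only [DN_31e, DN_31n _ _ _ _ hi]; omega)⟩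
        · exact ⟨fun hD => by (simp only [DN_31n _ _ _ _ hi', DN_31n _ _ _ _ hi] at hD; first | exact ⟨rfl, rfl, by omega⟩ | (exfalso; omega)), by (simp only [DN_31n _ _ _ _ hi', DN_31n _ _ _ _ hi]; omega)⟩
  · refine ⟨3, I, h, ?_, ?_, ?_, ?_⟩
    · rw [mem_vset]; omega
    · have hs : s = h := by omega
      rw [hs]; exact adj_33 _ _ _ _ hi
    · simp only [DN_31e, DN_31n _ _ _ _ hi]; omega
    · intro t'' i'' s'' hw ha
      rcases nbr3 _ _ _ _ _ _ _ hu hw ha with ⟨rfl, rfl, rfl, hb⟩ | ⟨rfl, rfl, rfl, hb⟩ | ⟨rfl, rfl, rfl, rfl⟩ | ⟨rfl, hk, rfl, rfl⟩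
      · exact ⟨fun hD => by (simp only [DN_31n _ _ _ _ hi] at hD; first | exact ⟨rfl, rfl, by omega⟩ | (exfalso; omega)), by (simp only [DN_31n _ _ _ _ hi]; omega)⟩
      · exact ⟨fun hD => by (simp only [DN_31n _ _ _ _ hi] at hD; first | exact ⟨rfl, rfl, by omega⟩ | (exfalso; omega)), by (simp only [DN_31n _ _ _ _ hi]; omega)⟩
      · exact ⟨fun hD => by (simp only [DN_11n _ _ _ _ hi, DN_31n _ _ _ _ hi] at hD; first | exact ⟨rfl, rfl, by omega⟩ | (exfalso; omega)), by (simp only [DN_11n _ _ _ _ hi, DN_31n _ _ _ _ hi]; omega)⟩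
      · by_cases hi' : i'' = I
        · subst hi'; exact ⟨fun hD => by (simp only [DN_31e, DN_31n _ _ _ _ hi] at hD; first | exact ⟨rfl, rfl, by omega⟩ | (exfalso; omega)), by (simp only [DN_31e, DN_31n _ _ _ _ hi]; omega)⟩
        · exact ⟨fun hD => by (simp only [DN_31n _ _ _ _ hi', DN_31n _ _ _ _ hi] at hD; first | exact ⟨rfl, rfl, by omega⟩ | (exfalso; omega)), by (simp only [DN_31n _ _ _ _ hi', DN_31n _ _ _ _ hi]; omega)⟩
  · refine ⟨3, i, s - 1, ?_, ?_, ?_, ?_⟩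
    · rw [mem_vset]; omega
    · exact adj_dn _ _ _ _ _ (by norm_num) (by omega)
    · simp only [DN_31n _ _ _ _ hi]; omega
    · intro t'' i'' s'' hw ha
      rcases nbr3 _ _ _ _ _ _ _ hu hw ha with ⟨rfl, rfl, rfl, hb⟩ | ⟨rfl, rfl, rfl, hb⟩ | ⟨rfl, rfl, rfl, rfl⟩ | ⟨rfl, hk, rfl, rfl⟩
      · exact ⟨fun hD => by (simp only [DN_31n _ _ _ _ hi] at hD; first | exact ⟨rfl, rfl, by omega⟩ | (exfalso; omega)), by (simp only [DN_31n _ _ _ _ hi]; omega)⟩
      · exact ⟨fun hD => by (simp only [DN_31n _ _ _ _ hi] at hD; first | exact ⟨rfl, rfl, by omega⟩ | (exfalso; omega)), by (simp only [DN_31n _ _ _ _ hi]; omega)⟩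
      · exact ⟨fun hD => by (simp only [DN_11n _ _ _ _ hi, DN_31n _ _ _ _ hi] at hD; first | exact ⟨rfl, rfl, by omega⟩ | (exfalso; omega)), by (simp only [DN_11n _ _ _ _ hi, DN_31n _ _ _ _ hi]; omega)⟩
      · by_cases hi' : i'' = I
        · subst hi'; exact ⟨fun hD => by (simp only [DN_31e, DN_31n _ _ _ _ hi] at hD; first | exact ⟨rfl, rfl, by omega⟩ | (exfalso; omega)), by (simp only [DN_31e, DN_31n _ _ _ _ hi]; omega)⟩
        · exact ⟨fun hD => by (simp only [DN_31n _ _ _ _ hi', DN_31n _ _ _ _ hi] at hD; first | exact ⟨rfl, rfl, by omega⟩ | (exfalso; omega)), by (simp only [DN_31n _ _ _ _ hi', DN_31n _ _ _ _ hi]; omega)⟩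
  · refine ⟨1, i, L, ?_, ?_, ?_, ?_⟩
    · rw [mem_vset]; omega
    · have hs : s = 1 := by omega
      rw [hs]; exact (adj_13 _ _ _).symm
    · simp only [DN_11n _ _ _ _ hi, DN_31n _ _ _ _ hi]; omega
    · intro t'' i'' s'' hw ha
      rcases nbr3 _ _ _ _ _ _ _ hu hw ha with ⟨rfl, rfl, rfl, hb⟩ | ⟨rfl, rfl, rfl, hb⟩ | ⟨rfl, rfl, rfl, rfl⟩ | ⟨rfl, hk, rfl, rfl⟩
      · exact ⟨fun hD => by (simp only [DN_31n _ _ _ _ hi] at hD; first | exact ⟨rfl, rfl, by omega⟩ | (exfalso; omega)), by (simp only [DN_31n _ _ _ _ hi]; omega)⟩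
      · exact ⟨fun hD => by (simp only [DN_31n _ _ _ _ hi] at hD; first | exact ⟨rfl, rfl, by omega⟩ | (exfalso; omega)), by (simp only [DN_31n _ _ _ _ hi]; omega)⟩
      · exact ⟨fun hD => by (simp only [DN_11n _ _ _ _ hi, DN_31n _ _ _ _ hi] at hD; first | exact ⟨rfl, rfl, by omega⟩ | (exfalso; omega)), by (simp only [DN_11n _ _ _ _ hi, DN_31n _ _ _ _ hi]; omega)⟩
      · by_cases hi' : i'' = I
        · subst hi'; exact ⟨fun hD => by (simp only [DN_31e, DN_31n _ _ _ _ hi] at hD; first | exact ⟨rfl, rfl, by omega⟩ | (exfalso; omega)), by (simp only [DN_31e, DN_31n _ _ _ _ hi]; omega)⟩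
        · exact ⟨fun hD => by (simp only [DN_31n _ _ _ _ hi', DN_31n _ _ _ _ hi] at hD; first | exact ⟨rfl, rfl, by omega⟩ | (exfalso; omega)), by (simp only [DN_31n _ _ _ _ hi', DN_31n _ _ _ _ hi]; omega)⟩

theorem good_32n (L h i s I S : ℕ) (hL : h + 1 ≤ L) (hh : 1 ≤ h)
    (hi : i ≠ I)
    (hu : (3, i, s) ∈ vset L h) (hv : (2, I, S) ∈ vset L h) :
    Good L h 3 i s 2 I S := by
  have hu' := hu
  rw [mem_vset] at hu' hv
  have hcases : (S + (2 * h + 1 - s) ≤ (2 * h + 1 - S) + (2 * h + 1) + s ∧ s < h) ∨ (S + (2 * h + 1 - s) ≤ (2 * h + 1 - S) + (2 * h + 1) + s ∧ s = h) ∨ ((2 * h + 1 - S) + (2 * h + 1) + s < S + (2 * h + 1 - s) ∧ 2 ≤ s) ∨ ((2 * h + 1 - S) + (2 * h + 1) + s < S + (2 * h + 1 - s) ∧ s = 1) := by omega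
  rcases hcases with hc | hc | hc | hc
  · refine ⟨3, i, s + 1, ?_, ?_, ?_, ?_⟩
    · rw [mem_vset]; omega
    · exact adj_up _ _ _ _ _ (by norm_num)
    · simp only [DN_32n _ _ _ _ hi]; omega
    · intro t'' i'' s'' hw ha
      rcases nbr3 _ _ _ _ _ _ _ hu hw ha with ⟨rfl, rfl, rfl, hb⟩ | ⟨rfl, rfl, rfl, hb⟩ | ⟨rfl, rfl, rfl, rfl⟩ | ⟨rfl, hk, rfl, rfl⟩
      · exact ⟨fun hD => by (simp only [DN_32n _ _ _ _ hi] at hD; first | exact ⟨rfl, rfl, by omega⟩ | (exfalso; omega)), by (simp only [DN_32n _ _ _ _ hi]; omega)⟩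
      · exact ⟨fun hD => by (simp only [DN_32n _ _ _ _ hi] at hD; first | exact ⟨rfl, rfl, by omega⟩ | (exfalso; omega)), by (simp only [DN_32n _ _ _ _ hi]; omega)⟩
      · exact ⟨fun hD => by (simp only [DN_12n _ _ _ _ hi, DN_32n _ _ _ _ hi] at hD; first | exact ⟨rfl, rfl, by omega⟩ | (exfalso; omega)), by (simp only [DN_12n _ _ _ _ hi, DN_32n _ _ _ _ hi]; omega)⟩
      · by_cases hi' : i'' = I
        · subst hi'; exact ⟨fun hD => by (simp only [DN_32e, DN_32n _ _ _ _ hi] at hD; first | exact ⟨rfl, rfl, by omega⟩ | (exfalso; omega)), by (simp only [DN_32e, DN_32n _ _ _ _ hi]; omega)⟩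
        · exact ⟨fun hD => by (simp only [DN_32n _ _ _ _ hi', DN_32n _ _ _ _ hi] at hD; first | exact ⟨rfl, rfl, by omega⟩ | (exfalso; omega)), by (simp only [DN_32n _ _ _ _ hi', DN_32n _ _ _ _ hi]; omega)⟩
  · refine ⟨3, I, h, ?_, ?_, ?_, ?_⟩
    · rw [mem_vset]; omega
    · have hs : s = h := by omega
      rw [hs]; exact adj_33 _ _ _ _ hi
    · simp only [DN_32e, DN_32n _ _ _ _ hi]; omega
    · intro t'' i'' s'' hw ha
      rcases nbr3 _ _ _ _ _ _ _ hu hw ha with ⟨rfl, rfl, rfl, hb⟩ | ⟨rfl, rfl, rfl, hb⟩ | ⟨rfl, rfl, rfl, rfl⟩ | ⟨rfl, hk, rfl, rfl⟩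
      · exact ⟨fun hD => by (simp only [DN_32n _ _ _ _ hi] at hD; first | exact ⟨rfl, rfl, by omega⟩ | (exfalso; omega)), by (simp only [DN_32n _ _ _ _ hi]; omega)⟩
      · exact ⟨fun hD => by (simp only [DN_32n _ _ _ _ hi] at hD; first | exact ⟨rfl, rfl, by omega⟩ | (exfalso; omega)), by (simp only [DN_32n _ _ _ _ hi]; omega)⟩
      · exact ⟨fun hD => by (simp only [DN_12n _ _ _ _ hi, DN_32n _ _ _ _ hi] at hD; first | exact ⟨rfl, rfl, by omega⟩ | (exfalso; omega)), by (simp only [DN_12n _ _ _ _ hi, DN_32n _ _ _ _ hi]; omega)⟩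
      · by_cases hi' : i'' = I
        · subst hi'; exact ⟨fun hD => by (simp only [DN_32e, DN_32n _ _ _ _ hi] at hD; first | exact ⟨rfl, rfl, by omega⟩ | (exfalso; omega)), by (simp only [DN_32e, DN_32n _ _ _ _ hi]; omega)⟩
        · exact ⟨fun hD => by (simp only [DN_32n _ _ _ _ hi', DN_32n _ _ _ _ hi] at hD; first | exact ⟨rfl, rfl, by omega⟩ | (exfalso; omega)), by (simp only [DN_32n _ _ _ _ hi', DN_32n _ _ _ _ hi]; omega)⟩
  · refine ⟨3, i, s - 1, ?_, ?_, ?_, ?_⟩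
    · rw [mem_vset]; omega
    · exact adj_dn _ _ _ _ _ (by norm_num) (by omega)
    · simp only [DN_32n _ _ _ _ hi]; omega
    · intro t'' i'' s'' hw ha
      rcases nbr3 _ _ _ _ _ _ _ hu hw ha with ⟨rfl, rfl, rfl, hb⟩ | ⟨rfl, rfl, rfl, hb⟩ | ⟨rfl, rfl, rfl, rfl⟩ | ⟨rfl, hk, rfl, rfl⟩
      · exact ⟨fun hD => by (simp only [DN_32n _ _ _ _ hi] at hD; first | exact ⟨rfl, rfl, by omega⟩ | (exfalso; omega)), by (simp only [DN_32n _ _ _ _ hi]; omega)⟩
      · exact ⟨fun hD => by (simp only [DN_32n _ _ _ _ hi] at hD; first | exact ⟨rfl, rfl, by omega⟩ | (exfalso; omega)), by (simp only [DN_32n _ _ _ _ hi]; omega)⟩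
      · exact ⟨fun hD => by (simp only [DN_12n _ _ _ _ hi, DN_32n _ _ _ _ hi] at hD; first | exact ⟨rfl, rfl, by omega⟩ | (exfalso; omega)), by (simp only [DN_12n _ _ _ _ hi, DN_32n _ _ _ _ hi]; omega)⟩
      · by_cases hi' : i'' = I
        · subst hi'; exact ⟨fun hD => by (simp only [DN_32e, DN_32n _ _ _ _ hi] at hD; first | exact ⟨rfl, rfl, by omega⟩ | (exfalso; omega)), by (simp only [DN_32e, DN_32n _ _ _ _ hi]; omega)⟩
        · exact ⟨fun hD => by (simp only [DN_32n _ _ _ _ hi', DN_32n _ _ _ _ hi] at hD; first | exact ⟨rfl, rfl, by omega⟩ | (exfalso; omega)), by (simp only [DN_32n _ _ _ _ hi', DN_32n _ _ _ _ hi]; omega)⟩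
  · refine ⟨1, i, L, ?_, ?_, ?_, ?_⟩
    · rw [mem_vset]; omega
    · have hs : s = 1 := by omega
      rw [hs]; exact (adj_13 _ _ _).symm
    · simp only [DN_12n _ _ _ _ hi, DN_32n _ _ _ _ hi]; omega
    · intro t'' i'' s'' hw ha
      rcases nbr3 _ _ _ _ _ _ _ hu hw ha with ⟨rfl, rfl, rfl, hb⟩ | ⟨rfl, rfl, rfl, hb⟩ | ⟨rfl, rfl, rfl, rfl⟩ | ⟨rfl, hk, rfl, rfl⟩
      · exact ⟨fun hD => by (simp only [DN_32n _ _ _ _ hi] at hD; first | exact ⟨rfl, rfl, by omega⟩ | (exfalso; omega)), by (simp only [DN_32n _ _ _ _ hi]; omega)⟩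
      · exact ⟨fun hD => by (simp only [DN_32n _ _ _ _ hi] at hD; first | exact ⟨rfl, rfl, by omega⟩ | (exfalso; omega)), by (simp only [DN_32n _ _ _ _ hi]; omega)⟩
      · exact ⟨fun hD => by (simp only [DN_12n _ _ _ _ hi, DN_32n _ _ _ _ hi] at hD; first | exact ⟨rfl, rfl, by omega⟩ | (exfalso; omega)), by (simp only [DN_12n _ _ _ _ hi, DN_32n _ _ _ _ hi]; omega)⟩
      · by_cases hi' : i'' = I
        · subst hi'; exact ⟨fun hD => by (simp only [DN_32e, DN_32n _ _ _ _ hi] at hD; first | exact ⟨rfl, rfl, by omega⟩ | (exfalso; omega)), by (simp only [DN_32e, DN_32n _ _ _ _ hi]; omega)⟩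
        · exact ⟨fun hD => by (simp only [DN_32n _ _ _ _ hi', DN_32n _ _ _ _ hi] at hD; first | exact ⟨rfl, rfl, by omega⟩ | (exfalso; omega)), by (simp only [DN_32n _ _ _ _ hi', DN_32n _ _ _ _ hi]; omega)⟩

theorem good_33e (L h i s S : ℕ) (hL : h + 1 ≤ L) (hh : 1 ≤ h)
    (hne : s ≠ S)
    (hu : (3, i, s) ∈ vset L h) (hv : (3, i, S) ∈ vset L h) :
    Good L h 3 i s 3 i S := by
  have hu' := hu
  rw [mem_vset] at hu' hv
  have hcases : (s < S) ∨ (S < s) := by omega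
  rcases hcases with hc | hc
  · refine ⟨3, i, s + 1, ?_, ?_, ?_, ?_⟩
    · rw [mem_vset]; omega
    · exact adj_up _ _ _ _ _ (by norm_num)
    · simp only [DN_33e]; omega
    · intro t'' i'' s'' hw ha
      rcases nbr3 _ _ _ _ _ _ _ hu hw ha with ⟨rfl, rfl, rfl, hb⟩ | ⟨rfl, rfl, rfl, hb⟩ | ⟨rfl, rfl, rfl, rfl⟩ | ⟨rfl, hk, rfl, rfl⟩
      · exact ⟨fun hD => by (simp only [DN_33e] at hD; first | exact ⟨rfl, rfl, by omega⟩ | (exfalso; omega)), by (simp only [DN_33e]; omega)⟩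
      · exact ⟨fun hD => by (simp only [DN_33e] at hD; first | exact ⟨rfl, rfl, by omega⟩ | (exfalso; omega)), by (simp only [DN_33e]; omega)⟩
      · exact ⟨fun hD => by (simp only [DN_13e, DN_33e] at hD; first | exact ⟨rfl, rfl, by omega⟩ | (exfalso; omega)), by (simp only [DN_13e, DN_33e]; omega)⟩
      · exact ⟨fun hD => by (simp only [DN_33n _ _ _ _ (Ne.symm hk), DN_33e] at hD; first | exact ⟨rfl, rfl, by omega⟩ | (exfalso; omega)), by (simp only [DN_33n _ _ _ _ (Ne.symm hk), DN_33e]; omega)⟩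
  · refine ⟨3, i, s - 1, ?_, ?_, ?_, ?_⟩
    · rw [mem_vset]; omega
    · exact adj_dn _ _ _ _ _ (by norm_num) (by omega)
    · simp only [DN_33e]; omega
    · intro t'' i'' s'' hw ha
      rcases nbr3 _ _ _ _ _ _ _ hu hw ha with ⟨rfl, rfl, rfl, hb⟩ | ⟨rfl, rfl, rfl, hb⟩ | ⟨rfl, rfl, rfl, rfl⟩ | ⟨rfl, hk, rfl, rfl⟩
      · exact ⟨fun hD => by (simp only [DN_33e] at hD; first | exact ⟨rfl, rfl, by omega⟩ | (exfalso; omega)), by (simp only [DN_33e]; omega)⟩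
      · exact ⟨fun hD => by (simp only [DN_33e] at hD; first | exact ⟨rfl, rfl, by omega⟩ | (exfalso; omega)), by (simp only [DN_33e]; omega)⟩
      · exact ⟨fun hD => by (simp only [DN_13e, DN_33e] at hD; first | exact ⟨rfl, rfl, by omega⟩ | (exfalso; omega)), by (simp only [DN_13e, DN_33e]; omega)⟩
      · exact ⟨fun hD => by (simp only [DN_33n _ _ _ _ (Ne.symm hk), DN_33e] at hD; first | exact ⟨rfl, rfl, by omega⟩ | (exfalso; omega)), by (simp only [DN_33n _ _ _ _ (Ne.symm hk), DN_33e]; omega)⟩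

theorem good_33n (L h i s I S : ℕ) (hL : h + 1 ≤ L) (hh : 1 ≤ h)
    (hi : i ≠ I)
    (hu : (3, i, s) ∈ vset L h) (hv : (3, I, S) ∈ vset L h) :
    Good L h 3 i s 3 I S := by
  have hu' := hu
  rw [mem_vset] at hu' hv
  have hcases : (s < h) ∨ (s = h) := by omega
  rcases hcases with hc | hc
  · refine ⟨3, i, s + 1, ?_, ?_, ?_, ?_⟩
    · rw [mem_vset]; omega
    · exact adj_up _ _ _ _ _ (by norm_num)
    · simp only [DN_33n _ _ _ _ hi]; omega
    · intro t'' i'' s'' hw ha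
      rcases nbr3 _ _ _ _ _ _ _ hu hw ha with ⟨rfl, rfl, rfl, hb⟩ | ⟨rfl, rfl, rfl, hb⟩ | ⟨rfl, rfl, rfl, rfl⟩ | ⟨rfl, hk, rfl, rfl⟩
      · exact ⟨fun hD => by (simp only [DN_33n _ _ _ _ hi] at hD; first | exact ⟨rfl, rfl, by omega⟩ | (exfalso; omega)), by (simp only [DN_33n _ _ _ _ hi]; omega)⟩
      · exact ⟨fun hD => by (simp only [DN_33n _ _ _ _ hi] at hD; first | exact ⟨rfl, rfl, by omega⟩ | (exfalso; omega)), by (simp only [DN_33n _ _ _ _ hi]; omega)⟩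
      · exact ⟨fun hD => by (simp only [DN_13n _ _ _ _ hi, DN_33n _ _ _ _ hi] at hD; first | exact ⟨rfl, rfl, by omega⟩ | (exfalso; omega)), by (simp only [DN_13n _ _ _ _ hi, DN_33n _ _ _ _ hi]; omega)⟩
      · by_cases hi' : i'' = I
        · subst hi'; exact ⟨fun hD => by (simp only [DN_33e, DN_33n _ _ _ _ hi] at hD; first | exact ⟨rfl, rfl, by omega⟩ | (exfalso; omega)), by (simp only [DN_33e, DN_33n _ _ _ _ hi]; omega)⟩
        · exact ⟨fun hD => by (simp only [DN_33n _ _ _ _ hi', DN_33n _ _ _ _ hi] at hD; first | exact ⟨rfl, rfl, by omega⟩ | (exfalso; omega)), by (simp only [DN_33n _ _ _ _ hi', DN_33n _ _ _ _ hi]; omega)⟩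
  · refine ⟨3, I, h, ?_, ?_, ?_, ?_⟩
    · rw [mem_vset]; omega
    · have hs : s = h := by omega
      rw [hs]; exact adj_33 _ _ _ _ hi
    · simp only [DN_33e, DN_33n _ _ _ _ hi]; omega
    · intro t'' i'' s'' hw ha
      rcases nbr3 _ _ _ _ _ _ _ hu hw ha with ⟨rfl, rfl, rfl, hb⟩ | ⟨rfl, rfl, rfl, hb⟩ | ⟨rfl, rfl, rfl, rfl⟩ | ⟨rfl, hk, rfl, rfl⟩
      · exact ⟨fun hD => by (simp only [DN_33n _ _ _ _ hi] at hD; first | exact ⟨rfl, rfl, by omega⟩ | (exfalso; omega)), by (simp only [DN_33n _ _ _ _ hi]; omega)⟩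
      · exact ⟨fun hD => by (simp only [DN_33n _ _ _ _ hi] at hD; first | exact ⟨rfl, rfl, by omega⟩ | (exfalso; omega)), by (simp only [DN_33n _ _ _ _ hi]; omega)⟩
      · exact ⟨fun hD => by (simp only [DN_13n _ _ _ _ hi, DN_33n _ _ _ _ hi] at hD; first | exact ⟨rfl, rfl, by omega⟩ | (exfalso; omega)), by (simp only [DN_13n _ _ _ _ hi, DN_33n _ _ _ _ hi]; omega)⟩
      · by_cases hi' : i'' = I
        · subst hi'; exact ⟨fun hD => by (simp only [DN_33e, DN_33n _ _ _ _ hi] at hD; first | exact ⟨rfl, rfl, by omega⟩ | (exfalso; omega)), by (simp only [DN_33e, DN_33n _ _ _ _ hi]; omega)⟩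
        · exact ⟨fun hD => by (simp only [DN_33n _ _ _ _ hi', DN_33n _ _ _ _ hi] at hD; first | exact ⟨rfl, rfl, by omega⟩ | (exfalso; omega)), by (simp only [DN_33n _ _ _ _ hi', DN_33n _ _ _ _ hi]; omega)⟩

end Pool.Agent.Helper949_Geod
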